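import Pool.Agent.TH766.HP.Defs
import Pool.Agent.H527R9.CC.T_ROOTS

/-!
# Rich sets of primes
-/

set_option autoImplicit false

namespace Pool.Agent.TH766.HP

open Polynomial

namespace TRICH

/-- clearing denominators -/
theorem clear (g : ℚ[X]) : ∃ (G : ℤ[X]) (d : ℤ), d ≠ 0 ∧
    G.map (Int.castRingHom ℚ) = C (d : ℚ) * g := by
  obtain ⟨⟨d, hd⟩, hdg⟩ := IsLocalization.integerNormalization_map_to_map (nonZeroDivisors ℤ) g
  refine ⟨IsLocalization.integerNormalization (nonZeroDivisors ℤ) g, d,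
    nonZeroDivisors.ne_zero hd, ?_⟩
  have e : (Int.castRingHom ℚ) = algebraMap ℤ ℚ := rfl
  rw [e, hdg]
  ext i
  simp [Submonoid.smul_def]

/-- Hensel: for large primes a root modulo `p` gives a `p`-adic root -/
theorem hensel (f : ℤ[X]) (hf : 0 < f.natDegree) : ∃ (f1 : ℤ[X]) (B : ℕ), 0 < f1.natDegree ∧
    ∀ (p : ℕ) [Fact p.Prime], B < p → (∃ n : ℤ, (p : ℤ) ∣ f1.eval n) →
      ∃ t : ℚ_[p], aeval t f = 0 := by
  have hinj : Function.Injective (Int.castRingHom ℚ) := RingHom.injective_int _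
  have hfd : 0 < (f.map (Int.castRingHom ℚ)).natDegree := by
    rwa [natDegree_map_eq_of_injective hinj]
  obtain ⟨g, hgi, W, hW⟩ := exists_irreducible_of_natDegree_pos hfd
  obtain ⟨a, b, hab⟩ := hgi.separable
  obtain ⟨G, d, hd, hG⟩ := clear g
  have hdq : (d : ℚ) ≠ 0 := by exact_mod_cast hd
  obtain ⟨A, e1, he1, hA⟩ := clear (C (d : ℚ)⁻¹ * a)
  obtain ⟨A', e2, he2, hA'⟩ := clear (C (d : ℚ)⁻¹ * b)
  have hCC : C (d : ℚ) * C (d : ℚ)⁻¹ = 1 := by
    rw [← C_mul, mul_inv_cancel₀ hdq, C_1]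
  have hbez : C e2 * A * G + C e1 * A' * derivative G = C (e1 * e2) := by
    apply map_injective (Int.castRingHom ℚ) hinj
    rw [Polynomial.map_add, Polynomial.map_mul, Polynomial.map_mul, Polynomial.map_mul,
      Polynomial.map_mul, hA, hA', ← derivative_map, hG, derivative_C_mul, map_C, map_C, map_C,
      eq_intCast, eq_intCast, eq_intCast]
    push_cast
    rw [C_mul]
    linear_combination (C (e1 : ℚ) * C (e2 : ℚ) * (C (d : ℚ) * C (d : ℚ)⁻¹)) * hab +
      C (e1 : ℚ) * C (e2 : ℚ) * hCC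
  refine ⟨G, (e1 * e2).natAbs, ?_, ?_⟩
  · have h1 : (G.map (Int.castRingHom ℚ)).natDegree = G.natDegree :=
      natDegree_map_eq_of_injective hinj _
    rw [← h1, hG, natDegree_C_mul hdq]
    exact hgi.natDegree_pos
  · rintro p _ hp ⟨n, hn⟩
    have hder : ¬ (p : ℤ) ∣ (derivative G).eval n := by
      intro h
      have h1 := congrArg (fun q : ℤ[X] => q.eval n) hbez
      simp only [eval_add, eval_mul, eval_C] at h1
      have h2 : (p : ℤ) ∣ e1 * e2 := by
        rw [← h1]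
        exact dvd_add (hn.mul_left _) (h.mul_left _)
      have h3 := Int.natCast_dvd.1 h2
      have h4 := Nat.le_of_dvd (Int.natAbs_pos.2 (mul_ne_zero he1 he2)) h3
      omega
    have hev : ∀ q : ℤ[X], aeval ((n : ℤ) : ℤ_[p]) q = ((q.eval n : ℤ) : ℤ_[p]) := by
      intro q
      have := aeval_algebraMap_apply ℤ_[p] n q
      simpa using this
    obtain ⟨z, hz, -⟩ := hensels_lemma (p := p) (F := G) (a := ((n : ℤ) : ℤ_[p])) (by
      rw [hev, hev]
      have h1 : ‖((eval n (derivative G) : ℤ) : ℤ_[p])‖ = 1 := by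
        refine le_antisymm (PadicInt.norm_le_one _) ?_
        by_contra h
        rw [not_le, PadicInt.norm_int_lt_one_iff_dvd] at h
        exact hder h
      rw [h1, one_pow, PadicInt.norm_int_lt_one_iff_dvd]
      exact hn)
    refine ⟨(z : ℚ_[p]), ?_⟩
    have h1 : aeval (z : ℚ_[p]) G = 0 := by
      have := aeval_algebraMap_apply ℚ_[p] z G
      rw [hz, map_zero] at this
      exact this
    have h2 : aeval (z : ℚ_[p]) (G.map (Int.castRingHom ℚ)) = 0 := by
      rw [← h1]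
      exact aeval_map_algebraMap ℚ (z : ℚ_[p]) G
    rw [hG, map_mul, aeval_C] at h2
    have h3 : aeval (z : ℚ_[p]) g = 0 := by
      rcases mul_eq_zero.1 h2 with h | h
      · exfalso
        apply hdq
        exact (map_eq_zero_iff _ (algebraMap ℚ ℚ_[p]).injective).1 h
      · exact h
    have h4 : aeval (z : ℚ_[p]) f = aeval (z : ℚ_[p]) (f.map (Int.castRingHom ℚ)) :=
      (aeval_map_algebraMap ℚ (z : ℚ_[p]) f).symm
    rw [h4, hW, map_mul, h3, zero_mul]

/-- one more polynomial may be required to have a root modulo `p` -/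
theorem main (s : Finset ℤ[X]) (N : ℕ) (hs : ∀ f ∈ s, 0 < f.natDegree) (f0 : ℤ[X])
    (h0 : 0 < f0.natDegree) : ∃ (p : ℕ) (_ : Fact p.Prime), N < p ∧
      (∃ n : ℤ, (p : ℤ) ∣ f0.eval n) ∧ ∀ f ∈ s, ∃ t : ℚ_[p], aeval t f = 0 := by
  classical
  have hex : ∀ f : ℤ[X], ∃ (f1 : ℤ[X]) (B : ℕ), 0 < f.natDegree → (0 < f1.natDegree ∧
    ∀ (p : ℕ) [Fact p.Prime], B < p → (∃ n : ℤ, (p : ℤ) ∣ f1.eval n) →
      ∃ t : ℚ_[p], aeval t f = 0) := by
    intro f
    by_cases hf : 0 < f.natDegree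
    · obtain ⟨f1, B, h1, h2⟩ := hensel f hf
      exact ⟨f1, B, fun _ => ⟨h1, h2⟩⟩
    · exact ⟨0, 0, fun h => absurd h hf⟩
  choose f1 B hB using hex
  obtain ⟨p, hp, hlt, hroot⟩ := Pool.Agent.H527R9.CC.t_ROOTS (insert f0 (s.image f1)) (by
    intro f hf
    rcases Finset.mem_insert.1 hf with rfl | hf
    · exact h0
    · obtain ⟨f', hf', rfl⟩ := Finset.mem_image.1 hf
      exact (hB f' (hs f' hf')).1) (N + ∑ f ∈ s, B f)
  have : Fact p.Prime := ⟨hp⟩
  refine ⟨p, this, by omega, hroot _ (Finset.mem_insert_self _ _), fun f hf => ?_⟩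
  have hsum : B f ≤ ∑ f ∈ s, B f :=
    Finset.single_le_sum (f := fun f => B f) (fun _ _ => Nat.zero_le _) hf
  exact (hB f (hs f hf)).2 p (by omega)
    (hroot _ (Finset.mem_insert_of_mem (Finset.mem_image_of_mem _ hf)))

end TRICH

open TRICH

theorem four : S_FOUR := by
  intro s N hs
  have hdeg : 0 < (X ^ 2 + 1 : ℤ[X]).natDegree := by
    have : (X ^ 2 + 1 : ℤ[X]) = X ^ 2 + C 1 := by simp
    rw [this, natDegree_X_pow_add_C]
    norm_num
  obtain ⟨p, hp, hlt, ⟨n, hn⟩, hroot⟩ := main s (N + 2) hs (X ^ 2 + 1) hdeg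
  refine ⟨p, hp, ?_, by omega, hroot⟩
  show p % 4 = 1
  have h1 : IsSquare (-1 : ZMod p) := by
    refine ⟨(n : ZMod p), ?_⟩
    have h2 : (((X ^ 2 + 1 : ℤ[X]).eval n : ℤ) : ZMod p) = 0 :=
      (ZMod.intCast_zmod_eq_zero_iff_dvd _ _).2 hn
    simp only [eval_add, eval_pow, eval_X, eval_one] at h2
    push_cast at h2
    linear_combination -h2
  have h3 := (ZMod.exists_sq_eq_neg_one_iff (p := p)).1 h1
  have h4 : p % 2 = 1 := (Nat.Prime.mod_two_eq_one_iff_ne_two hp.out).2 (by omega)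
  omega

theorem sparse : S_SPARSE := by
  classical
  intro f
  have hcount : Countable ℤ[X] :=
    Cardinal.mk_le_aleph0_iff.1 (Polynomial.cardinalMk_le_max.trans (by simp))
  obtain ⟨e, he⟩ := exists_surjective_nat (Finset ℤ[X])
  have hex : ∀ i N : ℕ, ∃ (p : ℕ) (_ : Fact p.Prime), N < p ∧
      ∀ j ≤ i, ∀ g ∈ e j, 0 < g.natDegree → ∃ t : ℚ_[p], aeval t g = 0 := by
    intro i N
    obtain ⟨p, hp, h1, -, h2⟩ := main
      (((Finset.range (i + 1)).biUnion e).filter (fun g => 0 < g.natDegree)) N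
      (fun g hg => (Finset.mem_filter.1 hg).2) X (by simp)
    refine ⟨p, hp, h1, fun j hj g hg hd => h2 g ?_⟩
    rw [Finset.mem_filter, Finset.mem_biUnion]
    exact ⟨⟨j, Finset.mem_range.2 (by omega), hg⟩, hd⟩
  choose g hg1 hg2 hg3 using hex
  let q : ℕ → ℕ := fun i => Nat.rec (g 0 (f 0)) (fun i prev => g (i + 1) (prev + f (i + 1))) i
  have hq : ∀ i, ∃ N, q i = g i N ∧ f i ≤ N := by
    intro i
    cases i with
    | zero => exact ⟨f 0, rfl, le_rfl⟩
    | succ i => exact ⟨q i + f (i + 1), rfl, Nat.le_add_left _ _⟩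
  have hmono : StrictMono q := strictMono_nat_of_lt_succ fun i => by
    have h1 : q i + f (i + 1) < q (i + 1) := hg2 (i + 1) (q i + f (i + 1))
    omega
  refine ⟨q, hmono, fun i => ?_, fun s N hs => ?_⟩
  · obtain ⟨N, h1, h2⟩ := hq i
    have := hg2 i N
    omega
  · obtain ⟨j, rfl⟩ := he s
    obtain ⟨M, h1, h2⟩ := hq (j + N + 1)
    have hid : j + N + 1 ≤ q (j + N + 1) := hmono.id_le _
    refine ⟨g (j + N + 1) M, hg1 _ _, ⟨j + N + 1, h1⟩, ?_, fun h hh => ?_⟩
    · rw [← h1]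
      omega
    · exact hg3 (j + N + 1) M j (by omega) h hh (hs h hh)

end Pool.Agent.TH766.HP
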