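import Pool.Agent.TH766.HP.Defs
import Pool.Agent.H527R9.CC.Main3

/-!
# The combinatorial part
-/

set_option autoImplicit false

namespace Pool.Agent.TH766.HP

open Polynomial Pool.Agent.H527R9.CC

theorem core (Q : Set ℕ) (hQ : Rich Q) (r : ℕ) (S : Fin r → Set ℚ)
    (hS : ∀ i, Nice Q (S i)) (T : Set (Fin r → Prop)) (a1 b1 : ℤ) (hb1 : 0 < b1)
    (hT : ∀ a b : ℤ, 0 < b → b1 ∣ b → b1 ∣ a - a1 →
      ∃ n : ℤ, b ∣ n - a ∧ (fun i => (n : ℚ) ∈ S i) ∈ T) :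
    ∃ x : ℚ, (∀ l : ℤ, x ≠ l) ∧ (fun i => x ∈ S i) ∈ T := by
  choose R P F L N H hF hL hH hiff hR hP hlast using hS
  have hFfin : (⋃ i, F i).Finite := Set.finite_iUnion hF
  have hFZ : {n : ℤ | (n : ℚ) ∈ ⋃ i, F i}.Finite :=
    hFfin.preimage (Int.cast_injective.injOn)
  obtain ⟨n0, m0, hm0, hn0F, hn0T, hcol⟩ :=
    col_rel r (fun n i => (n : ℚ) ∈ S i) _ hFZ T a1 b1 hb1 hT
  have hn0 : ∀ i, (n0 : ℚ) ∉ F i := fun i h => hn0F (Set.mem_iUnion.2 ⟨i, h⟩)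
  choose δ hδ hδR using fun i => hR i n0 (hn0 i)
  -- negative conditions
  have hneg : ∀ i, ∃ M : ℕ, 0 < M ∧ ((n0 : ℚ) ∈ R i → (n0 : ℚ) ∉ S i → ∀ p : ℕ, p.Prime →
      M < p → ∀ m : ℤ, (M : ℤ) ∣ m → ∀ k : ℕ, (n0 : ℚ) + ((m : ℚ) / (p : ℚ) ^ k) ^ 2 ∉ F i →
      (n0 : ℚ) + ((m : ℚ) / (p : ℚ) ^ k) ^ 2 ∉ S i) := by
    intro i
    by_cases hh : (n0 : ℚ) ∈ R i ∧ (n0 : ℚ) ∉ S i
    · have : ∃ q : ℕ, q.Prime ∧ (n0 : ℚ) ∉ P i q := by
        by_contra hcon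
        push Not at hcon
        exact hh.2 ((hiff i n0 (hn0 i)).2 ⟨hh.1, hcon⟩)
      obtain ⟨q, hq, hnq⟩ := this
      obtain ⟨ε, hε, hεP⟩ := hP i q hq n0 (hn0 i) hnq
      obtain ⟨E, hE⟩ := CORE_small q hq ε hε
      refine ⟨q ^ (E + 1), pow_pos hq.pos _, fun _ _ p hp hpM m hm k hxF hxS => ?_⟩
      have hqp : q ≠ p := by
        rintro rfl
        have : q ^ 1 ≤ q ^ (E + 1) := Nat.pow_le_pow_right hq.pos (by omega)
        rw [pow_one] at this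
        omega
      have h1 := ((hiff i _ hxF).1 hxS).2 q hq
      have hm' : ((q ^ E : ℕ) : ℤ) ∣ m :=
        (Int.natCast_dvd_natCast.2 (pow_dvd_pow q (Nat.le_succ E))).trans hm
      have h2 := CORE_norm2 q p hq hp hqp m E k hm'
      exact hεP ((n0 : ℚ) + ((m : ℚ) / (p : ℚ) ^ k) ^ 2) (by
        rw [add_sub_cancel_left]; exact h2.trans_lt hE) h1
    · exact ⟨1, one_pos, fun h1 h2 => absurd ⟨h1, h2⟩ hh⟩
  choose M hM hMS using hneg
  -- the modulus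
  obtain ⟨e0, he0⟩ : ∃ e0 : ℕ, e0 = ∏ i, L i := ⟨_, rfl⟩
  have he0pos : e0 ≠ 0 := by rw [he0]; exact Finset.prod_ne_zero_iff.2 fun i _ => hL i
  have hLe : ∀ i, L i ∣ e0 := fun i => by
    rw [he0]; exact Finset.dvd_prod_of_mem L (Finset.mem_univ i)
  obtain ⟨m1, hmdef⟩ : ∃ m : ℤ, m = m0 * ∏ i, (M i : ℤ) := ⟨_, rfl⟩
  have hm1pos : 0 < m1 := by
    rw [hmdef]
    exact mul_pos hm0 (Finset.prod_pos fun i _ => by exact_mod_cast hM i)
  have hMm1 : ∀ i, (M i : ℤ) ∣ m1 := fun i => by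
    rw [hmdef]
    exact (Finset.dvd_prod_of_mem (fun i => (M i : ℤ)) (Finset.mem_univ i)).mul_left _
  have hm0m1 : m0 ∣ m1 := by rw [hmdef]; exact dvd_mul_right _ _
  obtain ⟨m, hmm⟩ : ∃ m : ℤ, m = m1 ^ e0 := ⟨_, rfl⟩
  have hmpos : 0 < m := by rw [hmm]; exact pow_pos hm1pos _
  have hMm : ∀ i, (M i : ℤ) ∣ m := fun i => by
    rw [hmm]; exact (hMm1 i).trans (dvd_pow_self _ he0pos)
  have hm0m : m0 ∣ m := by rw [hmm]; exact hm0m1.trans (dvd_pow_self _ he0pos)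
  obtain ⟨p, hpF, hpQ, hpgt, hpH⟩ := hQ (Finset.univ.biUnion H) (m.toNat + ∑ i, N i) (by
    intro f hf
    obtain ⟨i, -, hi⟩ := Finset.mem_biUnion.1 hf
    exact hH i f hi)
  have hp : p.Prime := hpF.out
  have hpm : m < p := by
    have : m.toNat < p := by omega
    have h2 := Int.toNat_of_nonneg hmpos.le
    omega
  have hpNi : ∀ i, N i < p := fun i => by
    have := Finset.single_le_sum (f := N) (fun _ _ => Nat.zero_le _) (Finset.mem_univ i)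
    omega
  have hpHi : ∀ i, ∀ h ∈ H i, ∃ t : ℚ_[p], aeval t h = 0 := fun i h hh =>
    hpH h (Finset.mem_biUnion.2 ⟨i, Finset.mem_univ i, hh⟩)
  have hMp : ∀ i, M i < p := fun i => by
    have h1 := Int.le_of_dvd hmpos (hMm i)
    have : (M i : ℤ) < p := by omega
    exact_mod_cast this
  choose K1 hK1 using fun i => hlast i p hpQ (hpNi i) (hpHi i) (2 * e0)
    (mul_ne_zero two_ne_zero he0pos) ((hLe i).mul_left 2) (dvd_mul_right 2 e0) n0 m1 hm1pos.ne'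
  choose K2 hK2 using fun i => CORE_real m p hp (δ i) (hδ i)
  obtain ⟨K3, hK3⟩ := CORE_fin n0 m hmpos.ne' p hp _ hFfin
  obtain ⟨j, hj⟩ : ∃ j : ℕ, j = 1 + K3 + Finset.univ.sup K1 + Finset.univ.sup K2 := ⟨_, rfl⟩
  obtain ⟨k, hk⟩ : ∃ k : ℕ, k = j * e0 := ⟨_, rfl⟩
  have hjk : j ≤ k := by rw [hk]; exact Nat.le_mul_of_pos_right j (Nat.pos_of_ne_zero he0pos)
  have hk1 : ∀ i, K1 i ≤ j := fun i => by
    have := Finset.le_sup (f := K1) (Finset.mem_univ i)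
    omega
  have hk2 : ∀ i, K2 i ≤ k := fun i => by
    have := Finset.le_sup (f := K2) (Finset.mem_univ i)
    omega
  have hxpow : ((m : ℚ) / (p : ℚ) ^ k) ^ 2 = ((m1 : ℚ) / (p : ℚ) ^ j) ^ (2 * e0) := by
    rw [hmm, hk]
    push_cast
    rw [pow_mul (p : ℚ) j e0, ← div_pow, ← pow_mul, mul_comm e0 2]
  obtain ⟨x, hx⟩ : ∃ x : ℚ, x = (n0 : ℚ) + ((m : ℚ) / (p : ℚ) ^ k) ^ 2 := ⟨_, rfl⟩
  have hxF : ∀ i, x ∉ F i := fun i h => hK3 k (by omega) (by
    rw [← hx]; exact Set.mem_iUnion.2 ⟨i, h⟩)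
  have hxR : ∀ i, (x ∈ R i ↔ (n0 : ℚ) ∈ R i) := fun i => hδR i x (by
    rw [hx, add_sub_cancel_left, abs_of_nonneg (sq_nonneg _)]
    exact hK2 i k (hk2 i))
  have hall : ∀ i, ((n0 : ℚ) ∈ S i ↔ x ∈ S i) := by
    refine fun i => ⟨fun hS0 => ?_, fun hSx => ?_⟩
    · -- positive conditions
      refine (hiff i x (hxF i)).2 ⟨(hxR i).2 ((hiff i n0 (hn0 i)).1 hS0).1, fun ℓ hℓ => ?_⟩
      by_cases hℓp : ℓ = p
      · subst hℓp
        rw [hx, hxpow]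
        exact hK1 i j (hk1 i)
      · by_contra hnot
        obtain ⟨ε, hε, hεP⟩ := hP i ℓ hℓ x (hxF i) hnot
        obtain ⟨e, he⟩ := CORE_small ℓ hℓ ε hε
        have : Fact ℓ.Prime := ⟨hℓ⟩
        have hcop : IsCoprime ((p : ℤ) ^ (2 * k)) ((ℓ : ℤ) ^ e) := by
          apply IsCoprime.pow
          exact Nat.isCoprime_iff_coprime.2 ((Nat.coprime_primes hp hℓ).2 (Ne.symm hℓp))
        obtain ⟨w, v, hwv⟩ := hcop
        obtain ⟨n, hnF, hnd, hnc⟩ := hcol (n0 + m ^ 2 * w) ((ℓ : ℤ) ^ e)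
          (pow_pos (by exact_mod_cast hℓ.pos) _)
          (by rw [add_sub_cancel_left]
              exact ((hm0m.trans (dvd_pow_self m two_ne_zero))).mul_right _)
        have hnS : (n : ℚ) ∈ S i := by
          have := congrFun hnc i
          simp only [eq_iff_iff] at this
          exact this.2 hS0
        have hnFi : (n : ℚ) ∉ F i := fun h => hnF (Set.mem_iUnion.2 ⟨i, h⟩)
        have hnP := ((hiff i n hnFi).1 hnS).2 ℓ hℓ
        refine hεP n (lt_of_le_of_lt ?_ he) hnP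
        have hp0 : (p : ℚ) ≠ 0 := by exact_mod_cast hp.ne_zero
        have hsplit : (n : ℚ) - x = ((n - (n0 + m ^ 2 * w) : ℤ) : ℚ) +
            ((-(m ^ 2 * (v * (ℓ : ℤ) ^ e)) : ℤ) : ℚ) / (p : ℚ) ^ (2 * k) := by
          have hwv' : (w : ℚ) * (p : ℚ) ^ (2 * k) + v * (ℓ : ℚ) ^ e = 1 := by
            exact_mod_cast hwv
          have : (v : ℚ) * (ℓ : ℚ) ^ e = 1 - w * (p : ℚ) ^ (2 * k) := by linarith
          rw [hx]
          push_cast
          rw [this, div_pow, ← pow_mul, mul_comm k 2]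
          field_simp
          ring
        rw [hsplit]
        refine padicNorm.nonarchimedean.trans (max_le ?_ ?_)
        · refine padicNorm.dvd_iff_norm_le.1 ?_
          push_cast
          exact (dvd_mul_left _ _).trans hnd
        · refine CORE_norm ℓ p hℓ hp hℓp _ e _ ?_
          push_cast
          rw [dvd_neg]
          exact ((dvd_mul_left _ _).mul_left _)
    · -- negative conditions
      by_contra hS0
      by_cases hR0 : (n0 : ℚ) ∈ R i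
      · refine hMS i hR0 hS0 p hp (hMp i) m (hMm i) k ?_ ?_
        · rw [← hx]; exact hxF i
        · rw [← hx]; exact hSx
      · exact hR0 ((hxR i).1 ((hiff i x (hxF i)).1 hSx).1)
  refine ⟨x, fun l => by rw [hx]; exact CORE_nonint n0 m hmpos p hp hpm k (by omega) l, ?_⟩
  have : (fun i => x ∈ S i) = fun i => (n0 : ℚ) ∈ S i := funext fun i => propext (hall i).symm
  rw [this]
  exact hn0T


end Pool.Agent.TH766.HP
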