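import Mathlib

/-!
# Roots of polynomials with parameters near a simple root
-/

set_option autoImplicit false

namespace Pool.Agent.TH766.HP

open Polynomial Filter Topology

section

variable {k : Type} [NontriviallyNormedField k]

theorem strict_eval2 (P : k[X][X]) (z : k × k) : ∃ f' : k × k →L[k] k,
    HasStrictFDerivAt (fun w : k × k => (P.map (evalRingHom w.1)).eval w.2) f' z := by
  induction P using Polynomial.induction_on' with
  | add P Q hP hQ =>
    obtain ⟨f, hf⟩ := hP
    obtain ⟨g, hg⟩ := hQ
    refine ⟨f + g, ?_⟩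
    have h2 := hf.add hg
    have h3 : (fun w : k × k => ((P + Q).map (evalRingHom w.1)).eval w.2) =
        (fun w : k × k => (P.map (evalRingHom w.1)).eval w.2) +
        (fun w : k × k => (Q.map (evalRingHom w.1)).eval w.2) := by
      funext w
      simp
    rw [h3]
    exact h2
  | monomial n c =>
    induction c using Polynomial.induction_on' with
    | add a b ha hb =>
      obtain ⟨f, hf⟩ := ha
      obtain ⟨g, hg⟩ := hb
      refine ⟨f + g, ?_⟩
      have h2 := hf.add hg
      have h3 : (fun w : k × k => ((monomial n (a + b)).map (evalRingHom w.1)).eval w.2) =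
          (fun w : k × k => ((monomial n a).map (evalRingHom w.1)).eval w.2) +
          (fun w : k × k => ((monomial n b).map (evalRingHom w.1)).eval w.2) := by
        funext w
        simp [Polynomial.map_monomial]
      rw [h3]
      exact h2
    | monomial m q =>
      have h1 : HasStrictFDerivAt (fun w : k × k => w.1) (ContinuousLinearMap.fst k k k) z :=
        (ContinuousLinearMap.fst k k k).hasStrictFDerivAt
      have h2 : HasStrictFDerivAt (fun w : k × k => w.2) (ContinuousLinearMap.snd k k k) z :=
        (ContinuousLinearMap.snd k k k).hasStrictFDerivAt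
      have h3 := ((h1.pow m).const_mul q).mul (h2.pow n)
      have h4 : (fun w : k × k => ((monomial n (monomial m q)).map (evalRingHom w.1)).eval w.2) =
          (fun w : k × k => q * w.1 ^ m) * fun w : k × k => w.2 ^ n := by
        funext w
        simp [Polynomial.map_monomial]
      rw [h4]
      exact ⟨_, h3⟩

theorem ift [CompleteSpace k] (P : k[X][X]) (y : k)
    (h0 : (P.map (evalRingHom 0)).eval y = 0)
    (h1 : (P.map (evalRingHom 0)).derivative.eval y ≠ 0) :
    ∃ δ : ℝ, 0 < δ ∧ ∀ s : k, ‖s‖ < δ → ∃ t : k, (P.map (evalRingHom s)).eval t = 0 := by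
  obtain ⟨f', hf'⟩ := strict_eval2 P (0, y)
  -- the partial derivative
  have hpart : f' (0, 1) = (P.map (evalRingHom 0)).derivative.eval y := by
    have ha : HasDerivAt (fun t : k => (P.map (evalRingHom 0)).eval t)
        ((P.map (evalRingHom 0)).derivative.eval y) y := Polynomial.hasDerivAt _ _
    have hb : HasDerivAt (fun t : k => ((0 : k), t)) ((0 : k), (1 : k)) y :=
      (hasDerivAt_const y (0 : k)).prodMk (hasDerivAt_id y)
    have hc := hf'.hasFDerivAt.comp_hasDerivAt y hb
    exact hc.unique ha
  set c := (P.map (evalRingHom 0)).derivative.eval y with hc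
  -- the map (s, t) ↦ (s, P(s, t))
  have hG : HasStrictFDerivAt (fun w : k × k => (w.1, (P.map (evalRingHom w.1)).eval w.2))
      ((ContinuousLinearMap.fst k k k).prod f') (0, y) :=
    (ContinuousLinearMap.fst k k k).hasStrictFDerivAt.prodMk hf'
  have hsurj : ((ContinuousLinearMap.fst k k k).prod f').range = ⊤ := by
    rw [LinearMap.range_eq_top]
    rintro ⟨a, b⟩
    refine ⟨(a, (b - f' (a, 0)) / c), ?_⟩
    have h2 : f' (a, (b - f' (a, 0)) / c) = f' (a, 0) + ((b - f' (a, 0)) / c) * f' (0, 1) := by
      have : (a, (b - f' (a, 0)) / c) = (a, (0 : k)) + ((b - f' (a, 0)) / c) • ((0 : k), (1 : k)) := by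
        ext <;> simp
      rw [this, map_add, map_smul, smul_eq_mul]
    simp only [ContinuousLinearMap.coe_coe, ContinuousLinearMap.prod_apply, ContinuousLinearMap.coe_fst']
    rw [h2, hpart]
    ext
    · rfl
    · show f' (a, 0) + (b - f' (a, 0)) / c * c = b
      field_simp
      ring
  have hmap := hG.map_nhds_eq_of_surj hsurj
  rw [h0] at hmap
  have hmem : Set.univ ∈ 𝓝 ((0 : k), y) := Filter.univ_mem
  have h5 := Filter.image_mem_map (m := fun w : k × k => (w.1, (P.map (evalRingHom w.1)).eval w.2)) hmem
  rw [hmap] at h5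
  obtain ⟨δ, hδ, hball⟩ := Metric.mem_nhds_iff.1 h5
  refine ⟨δ, hδ, fun s hs => ?_⟩
  have h6 : (s, (0 : k)) ∈ Metric.ball ((0 : k), (0 : k)) δ := by
    rw [Metric.mem_ball, dist_eq_norm, Prod.mk_sub_mk, sub_zero, sub_zero, Prod.norm_mk, norm_zero]
    exact max_lt hs hδ
  obtain ⟨w, -, hw⟩ := hball h6
  refine ⟨w.2, ?_⟩
  have h7 : w.1 = s := congrArg Prod.fst hw
  have h8 : (P.map (evalRingHom w.1)).eval w.2 = 0 := congrArg Prod.snd hw
  rwa [h7] at h8

end

end Pool.Agent.TH766.HP
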