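import Pool.Agent.TH766.HP.Series
import Pool.Agent.TH766.HP.Ift

/-!
# Puiseux expansions and `p`-adic points near infinity
-/

set_option autoImplicit false

namespace Pool.Agent.TH766.HP

open Polynomial

theorem X_pow_dvd_of_map {K L : Type} [Field K] [Field L] (φ : K →+* L) (n : ℕ) (P : K[X])
    (h : X ^ n ∣ P.map φ) : X ^ n ∣ P := by
  rw [X_pow_dvd_iff] at h ⊢
  intro d hd
  have h1 := h d hd
  rw [coeff_map] at h1
  exact (map_eq_zero φ).1 h1

theorem coe_eval {E : Type} [Field E] (H : E[X][X]) (σ : E[X]) :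
    ((H.eval σ : E[X]) : PowerSeries E) =
      (H.map (Polynomial.coeToPowerSeries.ringHom (R := E))).eval (σ : PowerSeries E) := by
  have h1 := Polynomial.eval₂_at_apply (p := H) (Polynomial.coeToPowerSeries.ringHom (R := E)) σ
  rw [← eval_map] at h1
  simpa using h1.symm

/-- the truncated expansion -/
theorem trunc_step (G : ℚ[X][X]) (σ : PowerSeries EE)
    (h0 : (G.map (ev (PowerSeries.X : PowerSeries EE))).eval σ = 0)
    (h1 : (G.map (ev (PowerSeries.X : PowerSeries EE))).derivative.eval σ ≠ 0) :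
    ∃ (v : ℕ) (σ0 : EE[X]), X ^ (2 * v + 1) ∣ (G.map (mapRingHom (algebraMap ℚ EE))).eval σ0 ∧
      X ^ v ∣ (G.map (mapRingHom (algebraMap ℚ EE))).derivative.eval σ0 ∧
      ((G.map (mapRingHom (algebraMap ℚ EE))).derivative.eval σ0).coeff v ≠ 0 := by
  classical
  set d1 := (G.map (ev (PowerSeries.X : PowerSeries EE))).derivative.eval σ with hd1
  have hex : ∃ v, PowerSeries.coeff v d1 ≠ 0 := by
    by_contra hcon
    push Not at hcon
    exact h1 (PowerSeries.ext fun n => by rw [hcon n, map_zero])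
  set v := Nat.find hex with hv
  have hv1 : PowerSeries.coeff v d1 ≠ 0 := Nat.find_spec hex
  have hv2 : ∀ i < v, PowerSeries.coeff i d1 = 0 := fun i hi => by
    have := Nat.find_min hex hi
    simpa using this
  set N := 2 * v + 1 with hN
  have hcomp : (Polynomial.coeToPowerSeries.ringHom (R := EE)).comp
      (mapRingHom (algebraMap ℚ EE)) = ev (PowerSeries.X : PowerSeries EE) := by
    apply ringHom_ext''
    rw [RingHom.comp_apply, ev_X]
    simp
  have hdvd : ∀ H : (PowerSeries EE)[X], (PowerSeries.X : PowerSeries EE) ^ N ∣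
      H.eval σ - H.eval ((PowerSeries.trunc N σ : EE[X]) : PowerSeries EE) := by
    intro H
    refine dvd_trans ?_ (sub_dvd_eval_sub _ _ H)
    rw [PowerSeries.X_pow_dvd_iff]
    intro i hi
    rw [map_sub, Polynomial.coeff_coe, PowerSeries.coeff_trunc, if_pos hi, sub_self]
  refine ⟨v, PowerSeries.trunc N σ, ?_, ?_, ?_⟩
  · have h2 := hdvd (G.map (ev (PowerSeries.X : PowerSeries EE)))
    rw [h0, zero_sub, dvd_neg, ← hcomp, ← Polynomial.map_map, ← coe_eval] at h2
    rw [X_pow_dvd_iff]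
    intro i hi
    rw [PowerSeries.X_pow_dvd_iff] at h2
    have := h2 i hi
    rwa [Polynomial.coeff_coe] at this
  · have h2 := hdvd (G.map (ev (PowerSeries.X : PowerSeries EE))).derivative
    rw [← hd1, ← hcomp, derivative_map, ← Polynomial.map_map, ← coe_eval, ← derivative_map] at h2
    rw [X_pow_dvd_iff]
    intro i hi
    rw [PowerSeries.X_pow_dvd_iff] at h2
    have := h2 i (by omega)
    rw [map_sub, hv2 i hi, zero_sub, neg_eq_zero, Polynomial.coeff_coe] at this
    exact this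
  · have h2 := hdvd (G.map (ev (PowerSeries.X : PowerSeries EE))).derivative
    rw [← hd1, ← hcomp, derivative_map, ← Polynomial.map_map, ← coe_eval, ← derivative_map] at h2
    rw [PowerSeries.X_pow_dvd_iff] at h2
    have h3 := h2 v (by omega)
    rw [map_sub, Polynomial.coeff_coe, sub_eq_zero] at h3
    rw [← h3]
    exact hv1

/-- the rescaled polynomial -/
theorem rescale {K : Type} [Field K] (G : K[X][X]) (v : ℕ) (σ0 : K[X])
    (h0 : X ^ (2 * v + 1) ∣ G.eval σ0) (h1 : X ^ v ∣ G.derivative.eval σ0)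
    (h2 : (G.derivative.eval σ0).coeff v ≠ 0) :
    ∃ Ψ : K[X][X], (taylor σ0 G).comp (C (X ^ (v + 1)) * X) = C (X ^ (2 * v + 1)) * Ψ ∧
      (Ψ.coeff 1).coeff 0 ≠ 0 ∧ ∀ j, 2 ≤ j → (Ψ.coeff j).coeff 0 = 0 := by
  set P := (taylor σ0 G).comp (C (X ^ (v + 1)) * X) with hP
  have hc : ∀ j, P.coeff j = (taylor σ0 G).coeff j * (X ^ (v + 1)) ^ j := fun j => by
    rw [hP, comp_C_mul_X_coeff]
  have hdvd : ∀ j, (X : K[X]) ^ (2 * v + 1) ∣ P.coeff j := by
    intro j
    rw [hc]
    rcases j with _ | _ | j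
    · rw [taylor_coeff_zero, pow_zero, mul_one]
      exact h0
    · rw [zero_add, taylor_coeff_one, pow_one]
      have : (2 * v + 1) = v + (v + 1) := by ring
      rw [this, pow_add]
      exact mul_dvd_mul h1 dvd_rfl
    · apply Dvd.dvd.mul_left
      rw [← pow_mul]
      apply pow_dvd_pow
      nlinarith
  obtain ⟨Ψ, hΨ⟩ := (C_dvd_iff_dvd_coeff _ _).2 hdvd
  have hcΨ : ∀ j, P.coeff j = X ^ (2 * v + 1) * Ψ.coeff j := fun j => by
    rw [hΨ, coeff_C_mul]
  refine ⟨Ψ, hΨ, ?_, ?_⟩
  · have h3 := congrArg (fun q : K[X] => q.coeff (2 * v + 1)) (hcΨ 1)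
    rw [hc, taylor_coeff_one, pow_one, mul_comm (X ^ (2 * v + 1)) _] at h3
    have h4 : (2 * v + 1) = v + (v + 1) := by ring
    have h5 := coeff_mul_X_pow (Ψ.coeff 1) (2 * v + 1) 0
    rw [zero_add] at h5
    rw [h5] at h3
    rw [← h3]
    have h6 := coeff_mul_X_pow (G.derivative.eval σ0) (v + 1) v
    rw [← h4] at h6
    rw [h6]
    exact h2
  · intro j hj
    have h3 := congrArg (fun q : K[X] => q.coeff (2 * v + 1)) (hcΨ j)
    rw [hc, mul_comm (X ^ (2 * v + 1)) _] at h3
    have h5 := coeff_mul_X_pow (Ψ.coeff j) (2 * v + 1) 0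
    rw [zero_add] at h5
    rw [h5] at h3
    rw [← h3, ← pow_mul, coeff_mul_X_pow', if_neg]
    nlinarith

theorem isIntegral_alg (x : EE) : IsIntegral ℚ x := by
  have h : ∀ (A B : Algebra ℚ EE), A = B := fun A B => Subsingleton.elim _ _
  have h1 : @IsIntegral ℚ EE _ _ (AlgebraicClosure.instAlgebra ℚ) x :=
    ((AlgebraicClosure.isAlgebraic ℚ).isAlgebraic x).isIntegral
  convert h1
  exact h _ _

/-- number fields as subfields of the algebraic numbers, with their `p`-adic embeddings -/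
theorem exists_field (σ0 : EE[X]) : ∃ (K : Type) (_ : Field K) (φ : K →+* EE) (σ1 : K[X])
    (h : ℤ[X]), σ1.map φ = σ0 ∧ 0 < h.natDegree ∧
    ∀ (p : ℕ) [Fact p.Prime], (∃ t : ℚ_[p], aeval t h = 0) → Nonempty (K →+* ℚ_[p]) := by
  classical
  set S : Set EE := (σ0.coeffs : Set EE) with hS
  have hfin : FiniteDimensional ℚ (IntermediateField.adjoin ℚ S) := by
    apply IntermediateField.finiteDimensional_adjoin
    intro x _
    exact isIntegral_alg x
  set K := IntermediateField.adjoin ℚ S with hK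
  have hlift : σ0 ∈ Polynomial.lifts (algebraMap K EE) := by
    rw [Polynomial.lifts_iff_coeff_lifts]
    intro n
    by_cases hn : σ0.coeff n = 0
    · rw [hn]
      exact ⟨0, map_zero _⟩
    · have h1 : σ0.coeff n ∈ S := by
        rw [hS, Finset.mem_coe]
        exact Polynomial.coeff_mem_coeffs hn
      exact ⟨⟨σ0.coeff n, IntermediateField.subset_adjoin ℚ S h1⟩, rfl⟩
  obtain ⟨σ1, hσ1⟩ := hlift
  set pb := Field.powerBasisOfFiniteOfSeparable ℚ K with hpb
  set f := minpoly ℚ pb.gen with hf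
  have hint : IsIntegral ℚ pb.gen := pb.isIntegral_gen
  obtain ⟨b, hb, hmap⟩ := IsLocalization.integerNormalization_spec (nonZeroDivisors ℤ) f
  have hb0 : b ≠ 0 := nonZeroDivisors.ne_zero hb
  set h := IsLocalization.integerNormalization (nonZeroDivisors ℤ) f with hh
  have hdeg : h.natDegree = f.natDegree := by
    have h1 : (h.map (algebraMap ℤ ℚ)).natDegree = h.natDegree :=
      natDegree_map_eq_of_injective (algebraMap ℤ ℚ).injective_int h
    rw [← h1, hmap]
    have h2 : b • f = C (b : ℚ) * f := by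
      rw [zsmul_eq_mul]
      simp
    rw [h2, natDegree_C_mul (by exact_mod_cast hb0)]
  refine ⟨K, inferInstance, algebraMap K EE, σ1, h, hσ1, ?_, ?_⟩
  · rw [hdeg]
    exact minpoly.natDegree_pos hint
  · intro p _ ⟨t, ht⟩
    have h3 : aeval t f = 0 := by
      have h4 : aeval t (h.map (algebraMap ℤ ℚ)) = 0 := by
        rw [aeval_map_algebraMap]
        exact ht
      rw [hmap] at h4
      have h2 : b • f = C (b : ℚ) * f := by
        rw [zsmul_eq_mul]
        simp
      rw [h2, map_mul, aeval_C, mul_eq_zero] at h4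
      rcases h4 with h4 | h4
      · exfalso
        rw [map_eq_zero] at h4
        exact hb0 (by exact_mod_cast h4)
      · exact h4
    exact ⟨(pb.lift t h3 : K →ₐ[ℚ] ℚ_[p]).toRingHom⟩

theorem map_ev_eq {K : Type} [Field K] (G : ℚ[X][X]) {k : Type} [Field k] [Algebra ℚ k]
    [Algebra ℚ K] (ι : K →+* k) (s : k) :
    ((G.map (mapRingHom (algebraMap ℚ K))).map (mapRingHom ι)).map (evalRingHom s) =
      G.map (ev s) := by
  rw [Polynomial.map_map, Polynomial.map_map]
  congr 1
  apply ringHom_ext''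
  rw [ev_X]
  simp

theorem pui : S_PUI := by
  intro g hg
  obtain ⟨m, B, C0, G, σ, hm, hG, h0, h1⟩ := series g hg
  obtain ⟨v, σ0, hv0, hv1, hv2⟩ := trunc_step G σ h0 h1
  obtain ⟨K, _, φ, σ1, h, hσ, hdeg, hemb⟩ := exists_field σ0
  have hchar : CharZero K := φ.charZero
  refine ⟨m, h, hm.ne', hdeg, fun p _ hp => ?_⟩
  obtain ⟨ι⟩ := hemb p hp
  set GK := G.map (mapRingHom (algebraMap ℚ K)) with hGK
  have hmapφ : GK.map (mapRingHom φ) = G.map (mapRingHom (algebraMap ℚ EE)) := by
    rw [hGK, Polynomial.map_map]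
    congr 1
    apply ringHom_ext''
    simp
  have hev : ∀ H : K[X][X], (H.eval σ1).map φ = (H.map (mapRingHom φ)).eval σ0 := by
    intro H
    have := Polynomial.eval₂_at_apply (p := H) (mapRingHom φ) σ1
    rw [← eval_map, coe_mapRingHom, hσ] at this
    exact this.symm
  have hv0' : X ^ (2 * v + 1) ∣ GK.eval σ1 := by
    apply X_pow_dvd_of_map φ
    rw [hev, hmapφ]
    exact hv0
  have hv1' : X ^ v ∣ GK.derivative.eval σ1 := by
    apply X_pow_dvd_of_map φ
    rw [hev, ← derivative_map, hmapφ]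
    exact hv1
  have hv2' : (GK.derivative.eval σ1).coeff v ≠ 0 := by
    intro hz
    apply hv2
    rw [← hmapφ, derivative_map, ← hev, coeff_map, hz, map_zero]
  obtain ⟨Ψ, hΨ, hΨ1, hΨ2⟩ := rescale GK v σ1 hv0' hv1' hv2'
  -- the `p`-adic polynomial
  set Ψp := Ψ.map (mapRingHom ι) with hΨp
  have hred : Ψp.map (evalRingHom 0) =
      C (ι ((Ψ.coeff 1).coeff 0)) * X + C (ι ((Ψ.coeff 0).coeff 0)) := by
    ext j
    rw [coeff_map, hΨp, coeff_map]
    simp only [coe_mapRingHom, coe_evalRingHom, coeff_add, coeff_C_mul, coeff_X, coeff_C]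
    rw [← coeff_zero_eq_eval_zero, coeff_map]
    rcases j with _ | _ | j
    · simp
    · simp
    · rw [hΨ2 _ (by omega)]
      simp
  set w := ι ((Ψ.coeff 1).coeff 0) with hw
  have hw0 : w ≠ 0 := by
    rw [hw, Ne, map_eq_zero]
    exact hΨ1
  set u := ι ((Ψ.coeff 0).coeff 0) with hu
  obtain ⟨δ, hδ, hroot⟩ := ift Ψp (-(u / w))
    (by rw [hred]; simp; field_simp; ring)
    (by rw [hred]; simpa using hw0)
  refine ⟨max 1 (1 / δ), fun z hz => ?_⟩
  have hz1 : 0 < ‖z‖ := lt_trans (lt_of_lt_of_le one_pos (le_max_left _ _)) hz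
  have hz0 : z ≠ 0 := norm_pos_iff.1 hz1
  set s := z⁻¹ with hs
  have hs0 : s ≠ 0 := inv_ne_zero hz0
  have hsδ : ‖s‖ < δ := by
    rw [hs, norm_inv]
    have : 1 / δ < ‖z‖ := lt_of_le_of_lt (le_max_right _ _) hz
    rw [inv_lt_comm₀ hz1 hδ, ← one_div]
    exact this
  obtain ⟨t0, ht0⟩ := hroot s hsδ
  -- transport to `G`
  have hP := congrArg (fun P : K[X][X] => ((P.map (mapRingHom ι)).map (evalRingHom s)).eval t0) hΨ
  simp only [Polynomial.map_mul, eval_mul] at hP
  rw [ht0, mul_zero, map_comp, map_comp] at hP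
  set t1 : ℚ_[p] := s ^ (v + 1) * t0 + (σ1.map ι).eval s with ht1
  have hG1 : (G.map (ev s)).eval t1 = 0 := by
    rw [← map_ev_eq G ι s, ← hP, ← hGK]
    rw [eval_comp]
    have h5 : ((taylor σ1 GK).map (mapRingHom ι)).map (evalRingHom s) =
        taylor ((σ1.map ι).eval s) ((GK.map (mapRingHom ι)).map (evalRingHom s)) := by
      rw [taylor_apply, taylor_apply, map_comp, map_comp]
      simp
    rw [h5, taylor_eval]
    congr 1
    simp [ht1]
  rw [hG _ s hs0, eval_mul, eval_C, eval_comp, eval_mul, eval_C, eval_X] at hG1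
  have hG2 := (mul_eq_zero.1 hG1).resolve_left (pow_ne_zero _ hs0)
  have hsz : s⁻¹ = z := by rw [hs, inv_inv]
  rw [hsz] at hG2
  exact ⟨z ^ B * t1, hG2⟩

end Pool.Agent.TH766.HP
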