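import Pool.Agent.TH766.HP.Defs
import Pool.Agent.H581R2.SARun

/-!
# The real condition is locally constant off a finite set
-/

set_option autoImplicit false

namespace Pool.Agent.TH766.HP

namespace REAL

open Pool.Agent.H581R2 Polynomial

/-- polynomials in one polynomial function -/
theorem pf_aeval {ι : Type} {f : (ι → ℝ) → ℝ} (hf : PF f) (a : ℚ[X]) :
    PF fun v => Polynomial.aeval (f v) a := by
  induction a using Polynomial.induction_on' with
  | add p q hp hq =>
    simp only [map_add]
    exact hp.add hq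
  | monomial n c =>
    simp only [Polynomial.aeval_monomial]
    exact (PF.const c).mul (hf.pow n)

/-- the defining polynomials as functions of all variables -/
theorem pf_eval₂ {ι : Type} {n : ℕ} {f : (ι → ℝ) → ℝ} (hf : PF f) {y : (ι → ℝ) → Fin n → ℝ}
    (hy : ∀ i, PF fun v => y v i) (G : MvPolynomial (Fin n) ℚ[X]) :
    PF fun v => MvPolynomial.eval₂
      ((Polynomial.aeval (f v) : ℚ[X] →ₐ[ℚ] ℝ) : ℚ[X] →+* ℝ) (y v) G := by
  induction G using MvPolynomial.induction_on with
  | C a =>
    simp only [MvPolynomial.eval₂_C]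
    exact pf_aeval hf a
  | add p q hp hq =>
    simp only [MvPolynomial.eval₂_add]
    exact hp.add hq
  | mul_X p i hp =>
    simp only [MvPolynomial.eval₂_mul, MvPolynomial.eval₂_X]
    exact hp.mul (hy i)

theorem sap (n r : ℕ) (F : Fin r → MvPolynomial (Fin n) ℚ[X]) :
    SAP (fun v : Unit → ℝ => HasPoint ℝ F (v ())) := by
  have h1 : SAP (fun w : Unit ⊕ Fin n → ℝ =>
      (∃ i ∈ (Finset.univ : Finset (Fin n)), ¬ w (Sum.inr i) = 0) ∧
      ∀ j ∈ (Finset.univ : Finset (Fin r)), MvPolynomial.eval₂
        ((Polynomial.aeval (w (Sum.inl ())) : ℚ[X] →ₐ[ℚ] ℝ) : ℚ[X] →+* ℝ)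
          (fun i => w (Sum.inr i)) (F j) = 0) := by
    refine SAP.and (SAP.exists_mem _ fun i _ => SAP.not (SAP.eq_zero (PF.coord _)))
      (SAP.forall_mem _ fun j _ => SAP.eq_zero ?_)
    exact pf_eval₂ (f := fun w : Unit ⊕ Fin n → ℝ => w (Sum.inl ())) (PF.coord _)
      (y := fun w i => w (Sum.inr i)) (fun i => PF.coord _) (F j)
  refine SAP.congr (SAP.exists_block n h1) fun v => ?_
  simp only [Sum.elim_inl, Sum.elim_inr, Finset.mem_univ, true_and, forall_true_left]
  unfold HasPoint
  refine exists_congr fun y => and_congr_left fun _ => ?_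
  constructor
  · intro h
    by_contra hcon
    push Not at hcon
    exact h (funext hcon)
  · rintro ⟨i, hi⟩ h
    exact hi (by rw [h]; rfl)

/-- signs of one polynomial near a point which is not a root -/
theorem sign_near (q : ℚ[X]) (x : ℚ) (hx : q.eval x ≠ 0) :
    ∃ ε : ℝ, 0 < ε ∧ ∀ y : ℝ, |y - x| < ε →
      SignType.sign (Polynomial.aeval y q) = SignType.sign (Polynomial.aeval (x : ℝ) q) := by
  have h1 : Polynomial.aeval (x : ℝ) q ≠ 0 := by
    have h2 : Polynomial.aeval (x : ℝ) q = ((q.eval x : ℚ) : ℝ) := by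
      have := Polynomial.aeval_algebraMap_apply ℝ x q
      simpa using this
    rw [h2]
    exact_mod_cast hx
  have hcont : Continuous fun y : ℝ => Polynomial.aeval y q := by
    have : (fun y : ℝ => Polynomial.aeval y q) =
        fun y : ℝ => (q.map (algebraMap ℚ ℝ)).eval y := by
      funext y
      rw [Polynomial.eval_map, Polynomial.aeval_def]
    rw [this]
    exact Polynomial.continuous _
  rcases lt_or_gt_of_ne h1 with h | h
  · have hev : ∀ᶠ y in nhds (x : ℝ), Polynomial.aeval y q < 0 :=
      hcont.continuousAt.eventually_lt continuousAt_const h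
    obtain ⟨ε, hε, h3⟩ := Metric.eventually_nhds_iff.1 hev
    exact ⟨ε, hε, fun y hy => by rw [sign_neg (h3 (by rwa [Real.dist_eq])), sign_neg h]⟩
  · have hev : ∀ᶠ y in nhds (x : ℝ), 0 < Polynomial.aeval y q :=
      continuousAt_const.eventually_lt hcont.continuousAt h
    obtain ⟨ε, hε, h3⟩ := Metric.eventually_nhds_iff.1 hev
    exact ⟨ε, hε, fun y hy => by rw [sign_pos (h3 (by rwa [Real.dist_eq])), sign_pos h]⟩

/-- the polynomial in one variable -/
noncomputable def uni (q : MvPolynomial Unit ℚ) : ℚ[X] := MvPolynomial.aeval (fun _ => (X : ℚ[X])) q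

theorem aeval_uni (q : MvPolynomial Unit ℚ) (v : Unit → ℝ) :
    MvPolynomial.aeval v q = Polynomial.aeval (v ()) (uni q) := by
  unfold uni
  induction q using MvPolynomial.induction_on with
  | C a => simp
  | add p q hp hq => simp only [map_add, hp, hq]
  | mul_X p i hp => simp only [map_mul, hp, MvPolynomial.aeval_X, Polynomial.aeval_X]

end REAL

open REAL Pool.Agent.H581R2 Polynomial in
theorem real : S_REAL := by
  intro n r F
  classical
  obtain ⟨Q, hQ⟩ := SA.iff (sap n r F)
  refine ⟨⋃ q ∈ Q.filter (fun q => uni q ≠ 0), {x : ℚ | (uni q).eval x = 0}, ?_, ?_⟩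
  · refine Set.Finite.biUnion (Finset.finite_toSet _) fun q hq => ?_
    have hq0 : uni q ≠ 0 := (Finset.mem_filter.1 hq).2
    refine ((uni q).roots.toFinset.finite_toSet).subset fun x hx => ?_
    rw [Finset.mem_coe, Multiset.mem_toFinset, Polynomial.mem_roots hq0]
    exact hx
  · intro x hx
    have hx' : ∀ q ∈ Q, uni q ≠ 0 → (uni q).eval x ≠ 0 := by
      intro q hq hq0 h
      apply hx
      simp only [Set.mem_iUnion]
      exact ⟨q, Finset.mem_filter.2 ⟨hq, hq0⟩, h⟩
    -- a common radius
    have key : ∀ T : Finset (MvPolynomial Unit ℚ), (∀ q ∈ T, q ∈ Q) → ∃ ε : ℝ, 0 < ε ∧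
        ∀ q ∈ T, ∀ y : ℝ, |y - x| < ε → SignType.sign (Polynomial.aeval y (uni q)) =
          SignType.sign (Polynomial.aeval (x : ℝ) (uni q)) := by
      intro T
      induction T using Finset.induction_on with
      | empty => intro _; exact ⟨1, one_pos, fun q hq => absurd hq (by simp)⟩
      | insert q T _ ih =>
        intro hT
        obtain ⟨ε1, h1, h2⟩ := ih fun p hp => hT p (Finset.mem_insert_of_mem hp)
        obtain ⟨ε2, h3, h4⟩ : ∃ ε : ℝ, 0 < ε ∧ ∀ y : ℝ, |y - x| < ε →
            SignType.sign (Polynomial.aeval y (uni q)) =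
              SignType.sign (Polynomial.aeval (x : ℝ) (uni q)) := by
          by_cases h0 : uni q = 0
          · exact ⟨1, one_pos, fun y _ => by
              rw [h0, Polynomial.aeval_zero, Polynomial.aeval_zero]⟩
          · exact sign_near _ x (hx' q (hT q (Finset.mem_insert_self _ _)) h0)
        refine ⟨min ε1 ε2, lt_min h1 h3, fun p hp y hy => ?_⟩
        rcases Finset.mem_insert.1 hp with rfl | hp
        · exact h4 y (hy.trans_le (min_le_right _ _))
        · exact h2 p hp y (hy.trans_le (min_le_left _ _))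
    obtain ⟨ε, hε, h⟩ := key Q fun q hq => hq
    obtain ⟨δ, hδ1, hδ2⟩ := exists_rat_btwn hε
    refine ⟨δ, by exact_mod_cast hδ1, fun y hy => ?_⟩
    have hy' : |(y : ℝ) - x| < ε := by
      have : |(y : ℝ) - x| < δ := by exact_mod_cast hy
      exact this.trans hδ2
    exact hQ (fun _ => (y : ℝ)) (fun _ => (x : ℝ)) fun q hq => by
      rw [aeval_uni, aeval_uni]
      exact h q hq y hy'

end Pool.Agent.TH766.HP
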