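import Pool.Agent.TH766.HP.Comp
import Pool.Agent.TH766.HP.Core
import Pool.Agent.TH766.HP.Pui
import Pool.Agent.TH766.HP.T_REAL
import Pool.Agent.TH146.GEN.Gen
import Pool.Agent.H527R9.CC.T_SQK

/-!
# The Boolean algebra generated by families satisfying the Hasse principle
-/

set_option autoImplicit false

namespace Pool.Agent.TH766.HP

open Polynomial Pool.Agent.H527R9.CC

/-- the fibre has points over all completions -/
def LocSol {n r : ℕ} (F : Fin r → MvPolynomial (Fin n) ℚ[X]) (x : ℚ) : Prop :=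
  HasPoint ℝ F (x : ℝ) ∧ ∀ (p : ℕ) [Fact p.Prime], HasPoint ℚ_[p] F (x : ℚ_[p])

/-- the rational numbers congruent to `a` modulo `b` (at the primes dividing `b`) -/
def Cls (a b : ℤ) : Set ℚ :=
  {x | ∀ q : ℕ, q.Prime → (q : ℤ) ∣ b → padicNorm q (x - a) ≤ padicNorm q b}

/-- Every residue class contains a residue class in which the Hasse principle holds for all but
finitely many fibres. -/
def HasseGen {n r : ℕ} (F : Fin r → MvPolynomial (Fin n) ℚ[X]) : Prop :=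
  ∀ a b : ℤ, 0 < b → ∃ a' b' : ℤ, 0 < b' ∧ b ∣ b' ∧ b ∣ a' - a ∧
    {x : ℚ | x ∈ Cls a' b' ∧ LocSol F x ∧ ¬ HasPoint ℚ F x}.Finite

/-- The Boolean algebra of sets of rational numbers generated by the sets of the `x` for which the
fibre `V_x` has a rational point, for families satisfying the Hasse principle, by the local
conditions at single primes, and by the conjunctions of local conditions at the real place and at
the primes outside `Q`. -/
inductive Alg (Q : Set ℕ) : Set ℚ → Prop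
  | family {n r : ℕ} (F : Fin r → MvPolynomial (Fin n) ℚ[X]) (hF : Homog F) (h : HasseGen F) :
      Alg Q {x | HasPoint ℚ F x}
  | padic (q : ℕ) (hq : q.Prime) (D : Set ℚ) (h : PadicLoc q D) : Alg Q D
  | loc (D : Set ℚ) (h : FamLoc Q D) : Alg Q D
  | compl (D : Set ℚ) (h : Alg Q D) : Alg Q Dᶜ
  | inter (D E : Set ℚ) (hD : Alg Q D) (hE : Alg Q E) : Alg Q (D ∩ E)

theorem Cls_mono {a b a' b' : ℤ} (hb' : 0 < b') (h1 : b ∣ b') (h2 : b ∣ a' - a) :
    Cls a' b' ⊆ Cls a b := by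
  intro x hx q hq hqb
  have : Fact q.Prime := ⟨hq⟩
  have h3 := hx q hq (hqb.trans h1)
  have h4 : padicNorm q ((b' : ℤ) : ℚ) ≤ padicNorm q ((b : ℤ) : ℚ) := by
    obtain ⟨c, rfl⟩ := h1
    push_cast
    rw [padicNorm.mul]
    have h5 := padicNorm.of_int (p := q) c
    have h6 : 0 ≤ padicNorm q (b : ℚ) := padicNorm.nonneg _
    nlinarith
  have h5 : padicNorm q ((a' - a : ℤ) : ℚ) ≤ padicNorm q ((b : ℤ) : ℚ) := by
    obtain ⟨c, hc⟩ := h2
    rw [hc]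
    push_cast
    rw [padicNorm.mul]
    have h5 := padicNorm.of_int (p := q) c
    have h6 : 0 ≤ padicNorm q (b : ℚ) := padicNorm.nonneg _
    nlinarith
  have h6 : x - a = (x - a') + ((a' - a : ℤ) : ℚ) := by push_cast; ring
  rw [h6]
  exact padicNorm.nonarchimedean.trans (max_le (h3.trans h4) h5)

theorem int_mem_Cls {a b n : ℤ} (h : b ∣ n - a) : (n : ℚ) ∈ Cls a b := by
  intro q hq _
  have : Fact q.Prime := ⟨hq⟩
  obtain ⟨c, hc⟩ := h
  have h1 : (n : ℚ) - a = (b : ℚ) * c := by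
    have : ((n - a : ℤ) : ℚ) = ((b * c : ℤ) : ℚ) := by rw [hc]
    push_cast at this
    exact this
  rw [h1, padicNorm.mul]
  have h5 := padicNorm.of_int (p := q) c
  have h6 : 0 ≤ padicNorm q (b : ℚ) := padicNorm.nonneg _
  nlinarith

theorem cls_closed {a b : ℤ} (hb : 0 < b) (p : ℕ) [Fact p.Prime] (x : ℚ)
    (hx : ¬ ((p : ℤ) ∣ b → padicNorm p (x - a) ≤ padicNorm p b)) :
    ∃ ε : ℚ, 0 < ε ∧ ∀ y : ℚ, padicNorm p (y - x) < ε →
      ¬ ((p : ℤ) ∣ b → padicNorm p (y - a) ≤ padicNorm p b) := by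
  push Not at hx
  have hb0 : (b : ℚ) ≠ 0 := by exact_mod_cast hb.ne'
  refine ⟨padicNorm p b, lt_of_le_of_ne (padicNorm.nonneg _) (padicNorm.nonzero hb0).symm,
    fun y hy hc => ?_⟩
  have h1 := hc hx.1
  have h2 : x - a = (y - a) - (y - x) := by ring
  have h3 : padicNorm p (x - a) ≤ padicNorm p b := by
    rw [h2]
    exact padicNorm.sub.trans (max_le h1 hy.le)
  exact absurd h3 (not_le.2 hx.2)

theorem HasPoint.map {k k' : Type} [Field k] [Algebra ℚ k] [Field k'] [Algebra ℚ k'] {n r : ℕ}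
    {F : Fin r → MvPolynomial (Fin n) ℚ[X]} {x : k} (φ : k →+* k') (h : HasPoint k F x) :
    HasPoint k' F (φ x) := by
  obtain ⟨y, hy, h0⟩ := h
  refine ⟨φ ∘ y, ?_, fun j => ?_⟩
  · intro hz
    apply hy
    funext i
    have := congrFun hz i
    simpa using this
  · have h1 := congrArg φ (h0 j)
    rw [map_zero, MvPolynomial.eval₂_comp_left] at h1
    have h2 : φ.comp (ev x) = ev (φ x) := comp_ev φ x
    unfold ev at h2
    rw [h2] at h1
    exact h1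

theorem HasPoint.real {n r : ℕ} {F : Fin r → MvPolynomial (Fin n) ℚ[X]} {x : ℚ}
    (h : HasPoint ℚ F x) : HasPoint ℝ F (x : ℝ) := by
  have := h.map (Rat.castHom ℝ)
  simpa using this

theorem HasPoint.padic {n r : ℕ} {F : Fin r → MvPolynomial (Fin n) ℚ[X]} {x : ℚ}
    (h : HasPoint ℚ F x) (p : ℕ) [Fact p.Prime] : HasPoint ℚ_[p] F (x : ℚ_[p]) := by
  have := h.map (Rat.castHom ℚ_[p])
  simpa using this

/-! ### Points near infinity -/

theorem eval_ne_large (p : ℕ) [Fact p.Prime] (E : ℚ[X]) (hE : E ≠ 0) :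
    ∃ c : ℝ, ∀ x : ℚ_[p], c < ‖x‖ → aeval x E ≠ 0 := by
  have hfin : {x : ℚ_[p] | aeval x E = 0}.Finite := by
    have h1 : (E.map (algebraMap ℚ ℚ_[p])) ≠ 0 := by
      rw [Ne, Polynomial.map_eq_zero]
      exact hE
    refine (Polynomial.finite_setOfPred_isRoot h1).subset ?_
    intro x hx
    change Polynomial.IsRoot _ x
    rw [IsRoot, eval_map_algebraMap]
    exact hx
  obtain ⟨c, hc⟩ := (hfin.isBounded).exists_norm_le
  exact ⟨c, fun x hx h0 => absurd (hc x h0) (not_le.2 hx)⟩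

theorem near {n r : ℕ} (F : Fin r → MvPolynomial (Fin n) ℚ[X]) (hF : Homog F)
    (hinf : ¬ {x : ℚ | HasPoint ℚ F x}.Finite) :
    ∃ (M : ℕ) (h : ℤ[X]), M ≠ 0 ∧ 0 < h.natDegree ∧ ∀ (p : ℕ) [Fact p.Prime],
      (∃ t : ℚ_[p], aeval t h = 0) → ∀ M' : ℕ, M' ≠ 0 → M ∣ M' → ∀ n m : ℤ, m ≠ 0 →
        ∃ K : ℕ, ∀ k : ℕ, K ≤ k →
          HasPoint ℚ_[p] F ((((n : ℚ) + ((m : ℚ) / (p : ℚ) ^ k) ^ M' : ℚ)) : ℚ_[p]) := by
  obtain ⟨g, E, hg, hE, hgen⟩ := (Pool.Agent.TH146.GEN.gen n r F hF).resolve_left hinf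
  obtain ⟨M, h, hM, hh, hpui⟩ := pui g hg
  refine ⟨M, h, hM, hh, fun p _ hp M' hM' hdvd a m hm => ?_⟩
  obtain ⟨c, hc⟩ := hpui p hp
  obtain ⟨c', hc'⟩ := eval_ne_large p E hE
  obtain ⟨e, rfl⟩ := hdvd
  have he : e ≠ 0 := by rintro rfl; exact hM' rfl
  obtain ⟨ε, hε, hsq⟩ := t_SQK p (M * e) hM'
  have hp1 : (1 : ℝ) < p := by exact_mod_cast (Fact.out : p.Prime).one_lt
  have hm0 : ‖(m : ℚ_[p])‖ ≠ 0 := by
    rw [Ne, norm_eq_zero]
    exact_mod_cast hm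
  have hmpos : 0 < ‖(m : ℚ_[p])‖ := lt_of_le_of_ne (norm_nonneg _) hm0.symm
  -- the size we need
  obtain ⟨A, hA⟩ : ∃ A : ℝ, A = max (max 1 c) (max c' (max (1 / ε) 1)) + 1 := ⟨_, rfl⟩
  obtain ⟨K, hK⟩ := pow_unbounded_of_one_lt (A / ‖(m : ℚ_[p])‖) hp1
  refine ⟨K, fun k hk => ?_⟩
  set q : ℚ_[p] := (m : ℚ_[p]) / (p : ℚ_[p]) ^ k with hq
  have hqn : A < ‖q‖ := by
    rw [hq, norm_div, norm_pow, Padic.norm_p, inv_pow, div_inv_eq_mul]
    have h1 : (p : ℝ) ^ K ≤ (p : ℝ) ^ k := pow_le_pow_right₀ hp1.le hk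
    have h2 : A / ‖(m : ℚ_[p])‖ < (p : ℝ) ^ k := hK.trans_le h1
    rw [div_lt_iff₀ hmpos] at h2
    linarith
  have hA1 : max 1 c < A := by rw [hA]; have := le_max_left (max 1 c) (max c' (max (1 / ε) 1)); linarith
  have hA2 : max c' (max (1 / ε) 1) < A := by
    rw [hA]; have := le_max_right (max 1 c) (max c' (max (1 / ε) 1)); linarith
  have hq1 : 1 < ‖q‖ := lt_trans (lt_of_le_of_lt (le_max_left _ _) hA1) hqn
  have hqc : c < ‖q‖ := lt_trans (lt_of_le_of_lt (le_max_right _ _) hA1) hqn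
  have hqc' : c' < ‖q‖ := lt_trans (lt_of_le_of_lt (le_max_left _ _) hA2) hqn
  have hqε : 1 / ε < ‖q‖ := lt_trans (lt_of_le_of_lt ((le_max_left _ _).trans (le_max_right _ _)) hA2) hqn
  have hq0 : q ≠ 0 := norm_pos_iff.1 (by linarith)
  -- the unit
  set u : ℚ_[p] := 1 + (a : ℚ_[p]) / q ^ (M * e) with hu
  have hsmall : ‖(a : ℚ_[p]) / q ^ (M * e)‖ < min ε 1 := by
    rw [norm_div, norm_pow]
    have h1 : ‖(a : ℚ_[p])‖ ≤ 1 := Padic.norm_int_le_one a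
    have h2 : ‖q‖ ≤ ‖q‖ ^ (M * e) := by
      calc ‖q‖ = ‖q‖ ^ 1 := (pow_one _).symm
        _ ≤ _ := pow_le_pow_right₀ hq1.le (Nat.one_le_iff_ne_zero.2 hM')
    have h3 : 0 < ‖q‖ ^ (M * e) := by positivity
    rw [div_lt_iff₀ h3]
    refine lt_of_le_of_lt h1 ?_
    rw [min_mul_of_nonneg _ _ h3.le, lt_min_iff]
    constructor
    · have h4 : 1 / ε < ‖q‖ ^ (M * e) := hqε.trans_le h2
      rwa [div_lt_iff₀ hε, mul_comm] at h4
    · rw [one_mul]
      exact hq1.trans_le h2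
  obtain ⟨w, hw⟩ := hsq u (by
    rw [hu, add_sub_cancel_left]
    exact hsmall.trans_le (min_le_left _ _))
  have hun : ‖u‖ = 1 := by
    have h1 : ‖(a : ℚ_[p]) / q ^ (M * e)‖ ≠ ‖(1 : ℚ_[p])‖ := by
      rw [norm_one]
      exact (hsmall.trans_le (min_le_right _ _)).ne
    rw [hu, Padic.add_eq_max_of_ne h1.symm, norm_one]
    exact max_eq_left (hsmall.trans_le (min_le_right _ _)).le
  have hwn : ‖w‖ = 1 := by
    have h1 : ‖w‖ ^ (M * e) = 1 := by rw [← norm_pow, hw, hun]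
    exact (pow_eq_one_iff_of_nonneg (norm_nonneg _) hM').1 h1
  have hx : ((((a : ℚ) + ((m : ℚ) / (p : ℚ) ^ k) ^ (M * e) : ℚ)) : ℚ_[p]) = ((q * w) ^ e) ^ M := by
    have h1 : ((q * w) ^ e) ^ M = q ^ (M * e) * w ^ (M * e) := by
      rw [← pow_mul, mul_comm e M, mul_pow]
    rw [h1, hw, hu, mul_add, mul_one, mul_div_cancel₀ _ (pow_ne_zero _ hq0), hq]
    push_cast
    ring
  have hzn : ‖q‖ ≤ ‖(q * w) ^ e‖ := by
    rw [norm_pow, norm_mul, hwn, mul_one]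
    calc ‖q‖ = ‖q‖ ^ 1 := (pow_one _).symm
      _ ≤ _ := pow_le_pow_right₀ hq1.le (Nat.one_le_iff_ne_zero.2 he)
  have hxn : ‖q‖ ≤ ‖((q * w) ^ e) ^ M‖ := by
    refine hzn.trans ?_
    rw [norm_pow _ M]
    calc ‖(q * w) ^ e‖ = ‖(q * w) ^ e‖ ^ 1 := (pow_one _).symm
      _ ≤ _ := pow_le_pow_right₀ (hq1.le.trans hzn) (Nat.one_le_iff_ne_zero.2 hM)
  obtain ⟨t, ht⟩ := hc ((q * w) ^ e) (hqc.trans_le hzn)
  rw [hx]
  exact hgen ℚ_[p] _ t (hc' _ (hqc'.trans_le hxn)) ht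

end Pool.Agent.TH766.HP
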