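import Pool.Agent.TH766.HP.Defs

/-!
# The `p`-adic conditions are closed
-/

set_option autoImplicit false

namespace Pool.Agent.TH766.HP

open Polynomial

/-- the value of `F` at `(x, y)` -/
noncomputable def vl (k : Type) [Field k] [Algebra ℚ k] {n : ℕ} (F : MvPolynomial (Fin n) ℚ[X])
    (x : k) (y : Fin n → k) : k :=
  MvPolynomial.eval₂ ((aeval x : ℚ[X] →ₐ[ℚ] k) : ℚ[X] →+* k) y F

theorem vl_smul (k : Type) [Field k] [Algebra ℚ k] {n d : ℕ} (F : MvPolynomial (Fin n) ℚ[X])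
    (hF : F.IsHomogeneous d) (x : k) (c : k) (y : Fin n → k) :
    vl k F x (c • y) = c ^ d * vl k F x y := by
  unfold vl
  rw [MvPolynomial.eval₂_eq', MvPolynomial.eval₂_eq', Finset.mul_sum]
  refine Finset.sum_congr rfl fun m hm => ?_
  have h1 : m.degree = d := by
    rw [Finsupp.degree_eq_weight_one]
    exact hF (MvPolynomial.mem_support_iff.1 hm)
  have h2 : ∏ i, (c • y) i ^ m i = c ^ d * ∏ i, y i ^ m i := by
    simp only [Pi.smul_apply, smul_eq_mul, mul_pow, Finset.prod_mul_distrib]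
    rw [Finset.prod_pow_eq_pow_sum, ← h1, Finsupp.degree_eq_sum]
  rw [h2]
  ring

theorem continuous_vl (p : ℕ) [Fact p.Prime] {n : ℕ} (F : MvPolynomial (Fin n) ℚ[X]) :
    Continuous fun z : ℚ_[p] × (Fin n → ℚ_[p]) => vl ℚ_[p] F z.1 z.2 := by
  unfold vl
  simp only [MvPolynomial.eval₂_eq']
  refine continuous_finsetSum _ fun m _ => ?_
  refine Continuous.mul ?_ ?_
  · exact (Polynomial.continuous_aeval _).comp continuous_fst
  · refine continuous_finsetProd _ fun i _ => ?_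
    exact ((continuous_apply i).comp continuous_snd).pow _

theorem hasPoint_sphere (p : ℕ) [Fact p.Prime] {n r : ℕ} (F : Fin r → MvPolynomial (Fin n) ℚ[X])
    (hF : Homog F) (x : ℚ_[p]) : HasPoint ℚ_[p] F x ↔
      ∃ y ∈ Metric.sphere (0 : Fin n → ℚ_[p]) 1, ∀ j, vl ℚ_[p] (F j) x y = 0 := by
  constructor
  · rintro ⟨y, hy, h⟩
    have hn : Nonempty (Fin n) := by
      by_contra hcon
      apply hy
      funext i
      exact absurd ⟨i⟩ hcon
    obtain ⟨i, -, hi⟩ := Finset.exists_max_image Finset.univ (fun i => ‖y i‖)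
      Finset.univ_nonempty
    have hyi : y i ≠ 0 := by
      intro h0
      apply hy
      funext l
      have := hi l (Finset.mem_univ l)
      rw [h0, norm_zero] at this
      exact norm_le_zero_iff.1 this
    refine ⟨(y i)⁻¹ • y, ?_, fun j => ?_⟩
    · rw [mem_sphere_zero_iff_norm, norm_smul, norm_inv]
      have : ‖y‖ = ‖y i‖ := by
        apply le_antisymm
        · rw [pi_norm_le_iff_of_nonneg (norm_nonneg _)]
          exact fun l => hi l (Finset.mem_univ l)
        · exact norm_le_pi_norm y i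
      rw [this]
      exact inv_mul_cancel₀ (norm_ne_zero_iff.2 hyi)
    · obtain ⟨d, hd⟩ := hF j
      rw [vl_smul _ _ hd]
      have := h j
      unfold vl
      rw [this, mul_zero]
  · rintro ⟨y, hy, h⟩
    refine ⟨y, ?_, h⟩
    rintro rfl
    simp at hy

attribute [local irreducible] vl in
theorem isClosed_hasPoint (p : ℕ) [Fact p.Prime] {n r : ℕ}
    (F : Fin r → MvPolynomial (Fin n) ℚ[X]) (hF : Homog F) :
    IsClosed {x : ℚ_[p] | HasPoint ℚ_[p] F x} := by
  have hcomp : CompactSpace (Metric.sphere (0 : Fin n → ℚ_[p]) 1) :=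
    isCompact_iff_compactSpace.1 (isCompact_sphere _ _)
  have hset : {x : ℚ_[p] | HasPoint ℚ_[p] F x} =
      Prod.fst '' {z : ℚ_[p] × Metric.sphere (0 : Fin n → ℚ_[p]) 1 |
        ∀ j, vl ℚ_[p] (F j) z.1 z.2 = 0} := by
    ext x
    rw [Set.mem_ofPred_eq, hasPoint_sphere p F hF]
    constructor
    · rintro ⟨y, hy, h⟩
      exact ⟨(x, ⟨y, hy⟩), h, rfl⟩
    · rintro ⟨⟨x', y⟩, h, rfl⟩
      exact ⟨y.1, y.2, h⟩
  rw [hset]
  apply isClosedMap_fst_of_compactSpace
  rw [Set.ofPred_forall]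
  refine isClosed_iInter fun j => ?_
  refine isClosed_eq ?_ continuous_const
  have h2 : Continuous fun z : ℚ_[p] × Metric.sphere (0 : Fin n → ℚ_[p]) 1 =>
      ((z.1, (z.2 : Fin n → ℚ_[p])) : ℚ_[p] × (Fin n → ℚ_[p])) :=
    continuous_fst.prodMk (continuous_subtype_val.comp continuous_snd)
  have h3 := (continuous_vl p (F j)).comp h2
  exact h3

theorem comp : S_COMP := by
  intro n r F hF p _ x hx
  have hopen : IsOpen {x : ℚ_[p] | HasPoint ℚ_[p] F x}ᶜ := (isClosed_hasPoint p F hF).isOpen_compl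
  obtain ⟨ε, hε, hball⟩ := Metric.isOpen_iff.1 hopen x hx
  obtain ⟨δ, hδ, hδε⟩ := exists_rat_btwn hε
  refine ⟨δ, by exact_mod_cast hδ, fun y hy hy2 => ?_⟩
  apply hball _ hy2
  rw [Metric.mem_ball, dist_eq_norm, ← Rat.cast_sub, Padic.eq_padicNorm] 
  refine lt_trans ?_ hδε
  exact_mod_cast hy

end Pool.Agent.TH766.HP
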