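import Pool.Agent.H527R9.CC.MainDefs

/-!
# Families of projective schemes satisfying the Hasse principle: definitions and statements
-/

set_option autoImplicit false

namespace Pool.Agent.TH766.HP

open Polynomial

/-- The fibre at `x` of the family of closed subschemes of projective space given by the
polynomials `F j (x; y)` (homogeneous in `y`) has a point over `k`. -/
def HasPoint (k : Type) [Field k] [Algebra ℚ k] {n r : ℕ}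
    (F : Fin r → MvPolynomial (Fin n) ℚ[X]) (x : k) : Prop :=
  ∃ y : Fin n → k, y ≠ 0 ∧ ∀ j, MvPolynomial.eval₂ ((aeval x : ℚ[X] →ₐ[ℚ] k) : ℚ[X] →+* k) y (F j) = 0

/-- all the polynomials are homogeneous (in `y`) -/
def Homog {n r : ℕ} (F : Fin r → MvPolynomial (Fin n) ℚ[X]) : Prop :=
  ∀ j, ∃ d : ℕ, (F j).IsHomogeneous d

/-- the Hasse principle holds for all but finitely many fibres -/
def Hasse {n r : ℕ} (F : Fin r → MvPolynomial (Fin n) ℚ[X]) : Prop :=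
  {x : ℚ | HasPoint ℝ F (x : ℝ) ∧ (∀ (p : ℕ) [Fact p.Prime], HasPoint ℚ_[p] F (x : ℚ_[p])) ∧
    ¬ HasPoint ℚ F x}.Finite

/-- `Q` contains arbitrarily large primes `p` for which finitely many given nonconstant integer
polynomials have roots in `ℚ_[p]`. -/
def Rich (Q : Set ℕ) : Prop :=
  ∀ (s : Finset ℤ[X]) (N : ℕ), (∀ f ∈ s, 0 < f.natDegree) → ∃ (p : ℕ) (_ : Fact p.Prime),
    p ∈ Q ∧ N < p ∧ ∀ f ∈ s, ∃ t : ℚ_[p], aeval t f = 0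

/-- `S` is given by local conditions which are closed and, at a large prime of `Q`, satisfied near
infinity. -/
def Nice (Q : Set ℕ) (S : Set ℚ) : Prop :=
  ∃ (R : Set ℚ) (P : ℕ → Set ℚ) (F : Set ℚ) (L N : ℕ) (H : Finset ℤ[X]),
    F.Finite ∧ L ≠ 0 ∧ (∀ h ∈ H, 0 < h.natDegree) ∧
    (∀ x, x ∉ F → (x ∈ S ↔ x ∈ R ∧ ∀ p : ℕ, p.Prime → x ∈ P p)) ∧
    (∀ x, x ∉ F → ∃ ε : ℚ, 0 < ε ∧ ∀ y : ℚ, |y - x| < ε → (y ∈ R ↔ x ∈ R)) ∧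
    (∀ p : ℕ, p.Prime → ∀ x, x ∉ F → x ∉ P p →
      ∃ ε : ℚ, 0 < ε ∧ ∀ y : ℚ, padicNorm p (y - x) < ε → y ∉ P p) ∧
    ∀ (p : ℕ) [Fact p.Prime], p ∈ Q → N < p → (∀ h ∈ H, ∃ t : ℚ_[p], aeval t h = 0) →
      ∀ M : ℕ, M ≠ 0 → L ∣ M → 2 ∣ M → ∀ n m : ℤ, m ≠ 0 → ∃ K : ℕ, ∀ k : ℕ, K ≤ k →
        (n : ℚ) + ((m : ℚ) / (p : ℚ) ^ k) ^ M ∈ P p

/-! ### Statements -/

/-- the real condition is locally constant off a finite set -/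
def S_REAL : Prop := ∀ (n r : ℕ) (F : Fin r → MvPolynomial (Fin n) ℚ[X]),
  ∃ B : Set ℚ, B.Finite ∧ ∀ x : ℚ, x ∉ B → ∃ ε : ℚ, 0 < ε ∧ ∀ y : ℚ, |y - x| < ε →
    (HasPoint ℝ F (y : ℝ) ↔ HasPoint ℝ F (x : ℝ))

/-- the `p`-adic conditions are closed -/
def S_COMP : Prop := ∀ (n r : ℕ) (F : Fin r → MvPolynomial (Fin n) ℚ[X]), Homog F →
  ∀ (p : ℕ) [Fact p.Prime] (x : ℚ), ¬ HasPoint ℚ_[p] F (x : ℚ_[p]) →
    ∃ ε : ℚ, 0 < ε ∧ ∀ y : ℚ, padicNorm p (y - x) < ε → ¬ HasPoint ℚ_[p] F (y : ℚ_[p])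

/-- `g` is a separable polynomial over `ℚ(X)` -/
def Sep (g : ℚ[X][X]) : Prop := 0 < g.natDegree ∧
  ∃ (a b : ℚ[X][X]) (D : ℚ[X]), D ≠ 0 ∧ a * g + b * derivative g = C D

/-- Generic points: either all but finitely many fibres are empty or there are points given by
algebraic functions. -/
def S_GEN : Prop := ∀ (n r : ℕ) (F : Fin r → MvPolynomial (Fin n) ℚ[X]), Homog F →
  {x : ℚ | HasPoint ℚ F x}.Finite ∨
  ∃ (g : ℚ[X][X]) (E : ℚ[X]), Sep g ∧ E ≠ 0 ∧ ∀ (k : Type) [Field k] [Algebra ℚ k] (x t : k),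
    aeval x E ≠ 0 → (g.map ((aeval x : ℚ[X] →ₐ[ℚ] k) : ℚ[X] →+* k)).eval t = 0 → HasPoint k F x

/-- Puiseux expansions at infinity, `p`-adically -/
def S_PUI : Prop := ∀ g : ℚ[X][X], Sep g → ∃ (M : ℕ) (h : ℤ[X]), M ≠ 0 ∧ 0 < h.natDegree ∧
  ∀ (p : ℕ) [Fact p.Prime], (∃ t : ℚ_[p], aeval t h = 0) → ∃ c : ℝ, ∀ z : ℚ_[p], c < ‖z‖ →
    ∃ t : ℚ_[p], (g.map ((aeval (z ^ M) : ℚ[X] →ₐ[ℚ] ℚ_[p]) : ℚ[X] →+* ℚ_[p])).eval t = 0

/-- there are sparse rich sets -/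
def S_SPARSE : Prop := ∀ f : ℕ → ℕ, ∃ q : ℕ → ℕ, StrictMono q ∧ (∀ i, f i ≤ q i) ∧
  Rich (Set.range q)

/-- the primes `1` modulo `4` are rich -/
def S_FOUR : Prop := Rich {p | p % 4 = 1}

end Pool.Agent.TH766.HP
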