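import Pool.Agent.TH766.HP.Alg

/-!
# The integers and families satisfying the Hasse principle
-/

set_option autoImplicit false

namespace Pool.Agent.TH766.HP

open Polynomial Pool.Agent.H527R9.CC

theorem nice_finite (Q : Set ℕ) (S : Set ℚ) (h : S.Finite) : Nice Q S := by
  refine ⟨∅, fun _ => Set.univ, S, 1, 0, ∅, h, one_ne_zero, by simp, ?_, ?_, ?_, ?_⟩
  · intro x hx
    simp [hx]
  · intro x _
    exact ⟨1, one_pos, fun y _ => by simp⟩
  · intro p _ x _ hx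
    exact absurd (Set.mem_univ x) hx
  · intro p _ _ _ _ M _ _ _ n m _
    exact ⟨0, fun k _ => Set.mem_univ _⟩

theorem nice_cls (Q : Set ℕ) (a b : ℤ) (hb : 0 < b) : Nice Q (Cls a b) := by
  refine ⟨Set.univ, fun p => {x | (p : ℤ) ∣ b → padicNorm p (x - a) ≤ padicNorm p b}, ∅, 1,
    b.natAbs, ∅, Set.finite_empty, one_ne_zero, by simp, ?_, ?_, ?_, ?_⟩
  · intro x _
    simp only [Set.mem_univ, true_and]
    exact Iff.rfl
  · intro x _
    exact ⟨1, one_pos, fun y _ => by simp⟩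
  · intro p hp x _ hx
    have : Fact p.Prime := ⟨hp⟩
    exact cls_closed hb p x hx
  · intro p _ _ hN _ M _ _ _ n m _
    refine ⟨0, fun k _ hd => ?_⟩
    exfalso
    have h1 := Nat.le_of_dvd (Int.natAbs_pos.2 hb.ne') (Int.natCast_dvd.1 hd)
    omega

theorem nice_family (Q : Set ℕ) {n r : ℕ} (F : Fin r → MvPolynomial (Fin n) ℚ[X]) (hF : Homog F)
    (a b : ℤ) (hb : 0 < b)
    (hfin : {x : ℚ | x ∈ Cls a b ∧ LocSol F x ∧ ¬ HasPoint ℚ F x}.Finite) :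
    Nice Q ({x | HasPoint ℚ F x} ∩ Cls a b) := by
  by_cases hS : {x : ℚ | HasPoint ℚ F x}.Finite
  · exact nice_finite Q _ (hS.subset Set.inter_subset_left)
  obtain ⟨M, h, hM, hh, hnear⟩ := near F hF hS
  obtain ⟨B, hB, hreal⟩ := real n r F
  refine ⟨{x | HasPoint ℝ F (x : ℝ)}, fun p => {x | (∀ [Fact p.Prime], HasPoint ℚ_[p] F (x : ℚ_[p])) ∧
    ((p : ℤ) ∣ b → padicNorm p (x - a) ≤ padicNorm p b)},
    {x : ℚ | x ∈ Cls a b ∧ LocSol F x ∧ ¬ HasPoint ℚ F x} ∪ B, M, b.natAbs, {h},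
    hfin.union hB, hM, by simpa using hh, ?_, ?_, ?_, ?_⟩
  · intro x hx
    constructor
    · rintro ⟨h1, h2⟩
      exact ⟨h1.real, fun p hp => ⟨fun {_} => h1.padic p, h2 p hp⟩⟩
    · rintro ⟨h1, h2⟩
      have hcls : x ∈ Cls a b := fun p hp => (h2 p hp).2
      refine ⟨?_, hcls⟩
      by_contra hno
      apply hx
      left
      refine ⟨hcls, ⟨h1, fun p hp => ?_⟩, hno⟩
      exact (h2 p hp.out).1
  · intro x hx
    exact hreal x fun hxB => hx (Or.inr hxB)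
  · intro p hp x hx hxP
    have hpF : Fact p.Prime := ⟨hp⟩
    by_cases h1 : HasPoint ℚ_[p] F (x : ℚ_[p])
    · have h2 : ¬ ((p : ℤ) ∣ b → padicNorm p (x - a) ≤ padicNorm p b) := by
        intro h3
        exact hxP ⟨fun {_} => h1, h3⟩
      obtain ⟨ε, hε, h4⟩ := cls_closed hb p x h2
      exact ⟨ε, hε, fun y hy hyP => h4 y hy hyP.2⟩
    · obtain ⟨ε, hε, h4⟩ := comp n r F hF p x h1
      exact ⟨ε, hε, fun y hy hyP => h4 y hy (@hyP.1 hpF)⟩
  · intro p hpF _ hN hroot M' hM' hdvd _ n' m' hm'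
    obtain ⟨K, hK⟩ := hnear p (hroot h (Finset.mem_singleton_self h)) M' hM' hdvd n' m' hm'
    refine ⟨K, fun k hk => ⟨fun {_} => hK k hk, fun hd => ?_⟩⟩
    exfalso
    have h1 := Nat.le_of_dvd (Int.natAbs_pos.2 hb.ne') (Int.natCast_dvd.1 hd)
    omega

theorem nice_padic (Q : Set ℕ) (q : ℕ) (hq : q.Prime) (D : Set ℚ) (h : PadicLoc q D) :
    Nice Q D := by
  obtain ⟨F, hF, hloc⟩ := h
  refine ⟨Set.univ, fun p => {x | p = q → x ∈ D}, F, 1, q, ∅, hF, one_ne_zero, by simp,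
    ?_, ?_, ?_, ?_⟩
  · intro x _
    constructor
    · intro hx
      exact ⟨Set.mem_univ _, fun p _ _ => hx⟩
    · rintro ⟨-, hx⟩
      exact hx q hq rfl
  · intro x _
    exact ⟨1, one_pos, fun y _ => by simp⟩
  · intro p _ x hx hxP
    have h1 : p = q ∧ x ∉ D := by
      by_contra hc
      apply hxP
      intro hpq
      by_contra hD
      exact hc ⟨hpq, hD⟩
    obtain ⟨rfl, hD⟩ := h1
    obtain ⟨ε, hε, h1⟩ := hloc x hx
    exact ⟨ε, hε, fun y hy hyP => hD ((h1 y hy).1 (hyP rfl))⟩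
  · intro p _ _ hN _ M _ _ _ n m _
    refine ⟨0, fun k _ hpq => ?_⟩
    omega

theorem nice_loc (Q : Set ℕ) (S : Set ℚ) (h : FamLoc Q S) : Nice Q S := by
  obtain ⟨R, P, F, hF, hR, hP, rfl⟩ := h
  refine ⟨R, fun p => {x | p ∉ Q → x ∈ P p}, F, 1, 0, ∅, hF, one_ne_zero, by simp,
    ?_, hR, ?_, ?_⟩
  · intro x _
    exact Iff.rfl
  · intro p hp x hx hxP
    have h1 : p ∉ Q ∧ x ∉ P p := by
      by_contra hc
      apply hxP
      intro hpq
      by_contra hD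
      exact hc ⟨hpq, hD⟩
    obtain ⟨hpQ, hD⟩ := h1
    obtain ⟨ε, hε, h1⟩ := hP p hp x hx
    exact ⟨ε, hε, fun y hy hyP => hD ((h1 y hy).1 (hyP hpQ))⟩
  · intro p _ hpQ _ _ M _ _ _ n m _
    exact ⟨0, fun k _ hpq => absurd hpQ hpq⟩

theorem alg_fin (Q : Set ℕ) (A : Set ℚ) (hA : Alg Q A) : ∀ a1 b1 : ℤ, 0 < b1 →
    ∃ (a0 b0 : ℤ), 0 < b0 ∧ b1 ∣ b0 ∧ b1 ∣ a0 - a1 ∧ ∃ (r : ℕ) (S : Fin r → Set ℚ),
      (∀ i, Nice Q (S i)) ∧ ∀ x y : ℚ, x ∈ Cls a0 b0 → y ∈ Cls a0 b0 →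
        (∀ i, (x ∈ S i ↔ y ∈ S i)) → (x ∈ A ↔ y ∈ A) := by
  induction hA with
  | family F hF h =>
    intro a1 b1 hb1
    obtain ⟨a0, b0, hb0, h1, h2, hfin⟩ := h a1 b1 hb1
    refine ⟨a0, b0, hb0, h1, h2, 1, fun _ => {x | HasPoint ℚ F x} ∩ Cls a0 b0,
      fun _ => nice_family Q F hF a0 b0 hb0 hfin, fun x y hx hy hxy => ?_⟩
    have h3 := hxy 0
    simp only [Set.mem_inter_iff, hx, hy, and_true] at h3
    exact h3
  | padic q hq D h =>
    intro a1 b1 hb1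
    exact ⟨a1, b1, hb1, dvd_rfl, by simp, 1, fun _ => D, fun _ => nice_padic Q q hq D h,
      fun x y _ _ h => h 0⟩
  | loc D h =>
    intro a1 b1 hb1
    exact ⟨a1, b1, hb1, dvd_rfl, by simp, 1, fun _ => D, fun _ => nice_loc Q D h,
      fun x y _ _ h => h 0⟩
  | compl D _ ih =>
    intro a1 b1 hb1
    obtain ⟨a0, b0, hb0, h1, h2, r, S, hS, h3⟩ := ih a1 b1 hb1
    exact ⟨a0, b0, hb0, h1, h2, r, S, hS, fun x y hx hy h => not_congr (h3 x y hx hy h)⟩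
  | inter D E _ _ ihD ihE =>
    intro a1 b1 hb1
    obtain ⟨a0, b0, hb0, h1, h2, r, S, hS, h3⟩ := ihD a1 b1 hb1
    obtain ⟨a0', b0', hb0', h1', h2', r', S', hS', h3'⟩ := ihE a0 b0 hb0
    have hsub := Cls_mono hb0' h1' h2'
    refine ⟨a0', b0', hb0', h1.trans h1', ?_, r + r', Fin.append S S', fun i => ?_,
      fun x y hx hy h => ?_⟩
    · have : a0' - a1 = (a0' - a0) + (a0 - a1) := by ring
      rw [this]
      exact dvd_add (h1.trans h2') h2
    · refine Fin.addCases (fun i => ?_) (fun i => ?_) i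
      · rw [Fin.append_left]; exact hS i
      · rw [Fin.append_right]; exact hS' i
    · refine and_congr (h3 x y (hsub hx) (hsub hy) fun i => ?_) (h3' x y hx hy fun i => ?_)
      · have := h (Fin.castAdd r' i)
        rwa [Fin.append_left] at this
      · have := h (Fin.natAdd r i)
        rwa [Fin.append_right] at this

/-- A set of the algebra all of whose elements are integers is nowhere dense in the profinite
topology. -/
theorem main (Q : Set ℕ) (hQ : Rich Q) (A : Set ℚ) (hA : Alg Q A)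
    (hAZ : A ⊆ Set.range fun n : ℤ => (n : ℚ)) (a1 b1 : ℤ) (hb1 : 0 < b1) :
    ∃ a b : ℤ, 0 < b ∧ b1 ∣ b ∧ b1 ∣ a - a1 ∧ ∀ n : ℤ, b ∣ n - a → (n : ℚ) ∉ A := by
  by_contra hcon
  push Not at hcon
  obtain ⟨a0, b0, hb0, h1, h2, r, S, hS, hdet⟩ := alg_fin Q A hA a1 b1 hb1
  obtain ⟨x, hx, y, ⟨hyA, hyC⟩, hyx⟩ := core Q hQ (r + 1) (Fin.cons (Cls a0 b0) S)
    (fun i => by
      refine Fin.cases ?_ (fun i => ?_) i
      · rw [Fin.cons_zero]; exact nice_cls Q a0 b0 hb0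
      · rw [Fin.cons_succ]; exact hS i)
    {v | ∃ y, (y ∈ A ∧ y ∈ Cls a0 b0) ∧
      (fun i => y ∈ (Fin.cons (Cls a0 b0) S : Fin (r + 1) → Set ℚ) i) = v} a0 b0 hb0
    (fun a b hb h3 h4 => by
      obtain ⟨n, hn1, hn2⟩ := hcon a b hb (h1.trans h3) (by
        have : a - a1 = (a - a0) + (a0 - a1) := by ring
        rw [this]
        exact dvd_add (h1.trans h4) h2)
      refine ⟨n, hn1, n, ⟨hn2, int_mem_Cls ?_⟩, rfl⟩
      have : n - a0 = (n - a) + (a - a0) := by ring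
      rw [this]
      exact dvd_add (h3.trans hn1) h4)
  have hiff : ∀ i, (y ∈ (Fin.cons (Cls a0 b0) S : Fin (r + 1) → Set ℚ) i ↔
      x ∈ (Fin.cons (Cls a0 b0) S : Fin (r + 1) → Set ℚ) i) := fun i =>
    (congrFun hyx i).to_iff
  have hxC : x ∈ Cls a0 b0 := by
    have := hiff 0
    rw [Fin.cons_zero] at this
    exact this.1 hyC
  have hxA : x ∈ A := (hdet x y hxC hyC fun i => by
    have := hiff i.succ
    rw [Fin.cons_succ] at this
    exact this.symm).2 hyA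
  obtain ⟨l, hl⟩ := hAZ hxA
  exact hx l hl.symm

end Pool.Agent.TH766.HP
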