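import Pool.Agent.TH766.HP.Main
import Pool.Agent.TH766.HP.T_RICH

/-!
# Relations between two rational numbers
-/

set_option autoImplicit false

namespace Pool.Agent.TH766.HP

open Polynomial Pool.Agent.H527R9.CC

/-- evaluation of a polynomial in two variables: the inner variable takes the value `a`, the outer
variable takes the value `b` -/
noncomputable def ev2 {k : Type} [Field k] [Algebra ℚ k] (a b : k) : ℚ[X][X] →+* k :=
  Polynomial.eval₂RingHom ((aeval a : ℚ[X] →ₐ[ℚ] k) : ℚ[X] →+* k) b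

/-- The fibre over `(a, b)` of the family of closed subschemes of projective space over the plane,
given by the polynomials `F j (a, b; y)` (homogeneous in `y`), has a point over `k`. -/
def HasPoint2 (k : Type) [Field k] [Algebra ℚ k] {n r : ℕ}
    (F : Fin r → MvPolynomial (Fin n) ℚ[X][X]) (a b : k) : Prop :=
  ∃ y : Fin n → k, y ≠ 0 ∧ ∀ j, MvPolynomial.eval₂ (ev2 a b) y (F j) = 0

/-- the fibre has points over all completions -/
def LocSol2 {n r : ℕ} (F : Fin r → MvPolynomial (Fin n) ℚ[X][X]) (a b : ℚ) : Prop :=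
  HasPoint2 ℝ F (a : ℝ) (b : ℝ) ∧
    ∀ (p : ℕ) [Fact p.Prime], HasPoint2 ℚ_[p] F (a : ℚ_[p]) (b : ℚ_[p])

/-- all the polynomials are homogeneous (in `y`) -/
def Homog2 {n r : ℕ} (F : Fin r → MvPolynomial (Fin n) ℚ[X][X]) : Prop :=
  ∀ j, ∃ d : ℕ, (F j).IsHomogeneous d

/-- the Hasse principle holds for all fibres outside some curve `G(a, b) = 0` -/
def Hasse2 {n r : ℕ} (F : Fin r → MvPolynomial (Fin n) ℚ[X][X]) : Prop :=
  ∃ G : ℚ[X][X], G ≠ 0 ∧ ∀ a b : ℚ, ev2 a b G ≠ 0 → LocSol2 F a b → HasPoint2 ℚ F a b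

/-- locally constant in the real topology at the points outside the curve `G = 0` -/
def RealConst2 (G : ℚ[X][X]) (D : Set (ℚ × ℚ)) : Prop :=
  ∀ x : ℚ × ℚ, ev2 x.1 x.2 G ≠ 0 → ∃ ε : ℚ, 0 < ε ∧ ∀ y : ℚ × ℚ,
    |y.1 - x.1| < ε → |y.2 - x.2| < ε → (y ∈ D ↔ x ∈ D)

/-- locally constant in the `p`-adic topology at the points outside the curve `G = 0` -/
def PadicConst2 (p : ℕ) (G : ℚ[X][X]) (D : Set (ℚ × ℚ)) : Prop :=
  ∀ x : ℚ × ℚ, ev2 x.1 x.2 G ≠ 0 → ∃ ε : ℚ, 0 < ε ∧ ∀ y : ℚ × ℚ,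
    padicNorm p (y.1 - x.1) < ε → padicNorm p (y.2 - x.2) < ε → (y ∈ D ↔ x ∈ D)

/-- The Boolean algebra of relations between two rational numbers generated by the relations
`V_{a,b}(ℚ) ≠ ∅` for the families over the plane satisfying the Hasse principle outside a curve,
by the local conditions at single primes, and by the conjunctions of local conditions at the real
place and at all the primes outside `Q` (all of them locally constant outside one curve). -/
inductive Alg2 (Q : Set ℕ) : Set (ℚ × ℚ) → Prop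
  | family {n r : ℕ} (F : Fin r → MvPolynomial (Fin n) ℚ[X][X]) (hF : Homog2 F) (h : Hasse2 F) :
      Alg2 Q {x | HasPoint2 ℚ F x.1 x.2}
  | padic (q : ℕ) (hq : q.Prime) (G : ℚ[X][X]) (hG : G ≠ 0) (D : Set (ℚ × ℚ))
      (h : PadicConst2 q G D) : Alg2 Q D
  | loc (G : ℚ[X][X]) (hG : G ≠ 0) (R : Set (ℚ × ℚ)) (P : ℕ → Set (ℚ × ℚ))
      (hR : RealConst2 G R) (hP : ∀ p : ℕ, p.Prime → PadicConst2 p G (P p)) :
      Alg2 Q {x | x ∈ R ∧ ∀ p : ℕ, p.Prime → p ∉ Q → x ∈ P p}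
  | compl (D : Set (ℚ × ℚ)) (h : Alg2 Q D) : Alg2 Q Dᶜ
  | inter (D E : Set (ℚ × ℚ)) (hD : Alg2 Q D) (hE : Alg2 Q E) : Alg2 Q (D ∩ E)

theorem ev2_eq {k : Type} [Field k] [Algebra ℚ k] (a : k) (b : ℚ) :
    (ev2 a (algebraMap ℚ k b)) = (ev a).comp (evalRingHom (C b)) := by
  apply Polynomial.ringHom_ext
  · intro c
    simp [ev2, ev]
  · simp [ev2, ev]

/-- the restriction of a family to a horizontal line -/
noncomputable def slice {n r : ℕ} (F : Fin r → MvPolynomial (Fin n) ℚ[X][X]) (b : ℚ) :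
    Fin r → MvPolynomial (Fin n) ℚ[X] := fun j => MvPolynomial.map (evalRingHom (C b)) (F j)

theorem hasPoint_slice {k : Type} [Field k] [Algebra ℚ k] {n r : ℕ}
    (F : Fin r → MvPolynomial (Fin n) ℚ[X][X]) (a : k) (b : ℚ) :
    HasPoint2 k F a (algebraMap ℚ k b) ↔ HasPoint k (slice F b) a := by
  unfold HasPoint2 HasPoint slice
  refine exists_congr fun y => and_congr_right fun _ => forall_congr' fun j => ?_
  rw [MvPolynomial.eval₂_map, ev2_eq]
  rfl

theorem homog_slice {n r : ℕ} (F : Fin r → MvPolynomial (Fin n) ℚ[X][X]) (hF : Homog2 F) (b : ℚ) :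
    Homog (slice F b) := fun j => by
  obtain ⟨d, hd⟩ := hF j
  exact ⟨d, hd.map _⟩

/-- the exceptional horizontal lines -/
theorem lines (G : ℚ[X][X]) (hG : G ≠ 0) : ∃ B : Set ℚ, B.Finite ∧ ∀ b, b ∉ B →
    {a : ℚ | ev2 a b G = 0}.Finite := by
  refine ⟨{b | G.eval (C b) = 0}, ?_, fun b hb => ?_⟩
  · have h1 := Polynomial.finite_setOfPred_isRoot hG
    refine (h1.preimage (f := fun b : ℚ => (C b : ℚ[X])) (C_injective.injOn)).subset ?_
    intro b hb
    exact hb
  · have h1 : G.eval (C b) ≠ 0 := hb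
    refine (Polynomial.finite_setOfPred_isRoot h1).subset ?_
    intro a ha
    have h2 : ev2 a b G = 0 := ha
    have h3 := ev2_eq (k := ℚ) a b
    simp only [Algebra.algebraMap_self, RingHom.id_apply] at h3
    rw [h3, RingHom.comp_apply] at h2
    change IsRoot (G.eval (C b)) a
    rw [IsRoot]
    simpa [ev] using h2

theorem alg_slice (Q : Set ℕ) (D : Set (ℚ × ℚ)) (hD : Alg2 Q D) : ∃ B : Set ℚ, B.Finite ∧
    ∀ b, b ∉ B → Alg Q {a | (a, b) ∈ D} := by
  induction hD with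
  | family F hF h =>
    obtain ⟨G, hG, hH⟩ := h
    obtain ⟨B, hB, hlines⟩ := lines G hG
    refine ⟨B, hB, fun b hb => ?_⟩
    have h1 : {a : ℚ | HasPoint2 ℚ F a b} = {a | HasPoint ℚ (slice F b) a} := by
      ext a
      exact hasPoint_slice F a b
    have h2 : {a : ℚ | (a, b) ∈ {x : ℚ × ℚ | HasPoint2 ℚ F x.1 x.2}} =
        {a | HasPoint ℚ (slice F b) a} := h1
    rw [h2]
    refine Alg.family _ (homog_slice F hF b) ?_
    intro a0 b0 hb0
    refine ⟨a0, b0, hb0, dvd_rfl, by simp, (hlines b hb).subset ?_⟩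
    rintro a ⟨-, ⟨hl1, hl2⟩, hno⟩
    by_contra hne
    apply hno
    rw [← hasPoint_slice F a b]
    refine hH a b hne ⟨?_, fun p _ => ?_⟩
    · have := (hasPoint_slice (k := ℝ) F (a : ℝ) b).2 hl1
      simpa using this
    · have := (hasPoint_slice (k := ℚ_[p]) F (a : ℚ_[p]) b).2 (hl2 p)
      simpa using this
  | padic q hq G hG D h =>
    obtain ⟨B, hB, hlines⟩ := lines G hG
    refine ⟨B, hB, fun b hb => Alg.padic q hq _ ⟨_, hlines b hb, fun a ha => ?_⟩⟩
    obtain ⟨ε, hε, h1⟩ := h (a, b) ha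
    refine ⟨ε, hε, fun y hy => h1 (y, b) hy ?_⟩
    simpa using hε
  | loc G hG R P hR hP =>
    obtain ⟨B, hB, hlines⟩ := lines G hG
    refine ⟨B, hB, fun b hb => Alg.loc _ ⟨{a | (a, b) ∈ R}, fun p => {a | (a, b) ∈ P p}, _,
      hlines b hb, fun a ha => ?_, fun p hp a ha => ?_, rfl⟩⟩
    · obtain ⟨ε, hε, h1⟩ := hR (a, b) ha
      refine ⟨ε, hε, fun y hy => h1 (y, b) hy ?_⟩
      simpa using hε
    · obtain ⟨ε, hε, h1⟩ := hP p hp (a, b) ha
      refine ⟨ε, hε, fun y hy => h1 (y, b) hy ?_⟩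
      simpa using hε
  | compl D _ ih =>
    obtain ⟨B, hB, h⟩ := ih
    exact ⟨B, hB, fun b hb => Alg.compl _ (h b hb)⟩
  | inter D E _ _ ihD ihE =>
    obtain ⟨B, hB, h⟩ := ihD
    obtain ⟨B', hB', h'⟩ := ihE
    exact ⟨B ∪ B', hB.union hB', fun b hb =>
      Alg.inter _ _ (h b fun hh => hb (Or.inl hh)) (h' b fun hh => hb (Or.inr hh))⟩

/-- integrality at the primes outside `Q` -/
theorem ring_mem (Q : Set ℕ) :
    Alg Q {x : ℚ | ∀ p : ℕ, p.Prime → p ∉ Q → padicNorm p x ≤ 1} := by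
  refine Alg.loc _ ⟨Set.univ, fun p => {x | padicNorm p x ≤ 1}, ∅, Set.finite_empty, ?_, ?_, ?_⟩
  · intro x _
    exact ⟨1, one_pos, fun y _ => by simp⟩
  · intro p hp x _
    have : Fact p.Prime := ⟨hp⟩
    refine ⟨1, one_pos, fun y hy => ⟨fun h => ?_, fun h => ?_⟩⟩
    · have h1 : x = y + -(y - x) := by ring
      show padicNorm p x ≤ 1
      rw [h1]
      refine padicNorm.nonarchimedean.trans (max_le h ?_)
      rw [padicNorm.neg]
      exact hy.le
    · have h1 : y = x + (y - x) := by ring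
      show padicNorm p y ≤ 1
      rw [h1]
      exact padicNorm.nonarchimedean.trans (max_le h hy.le)
  · ext x
    simp

/-- The pole relation at the primes of `Q`. -/
def Pole (Q : Set ℕ) : Set (ℚ × ℚ) :=
  {x | ∀ p : ℕ, p.Prime → p ∈ Q → 1 < padicNorm p x.1 → 1 < padicNorm p x.2}

theorem int_of_norm (x : ℚ) (h : ∀ p : ℕ, p.Prime → padicNorm p x ≤ 1) :
    x ∈ Set.range fun n : ℤ => (n : ℚ) := by
  refine ⟨x.num, ?_⟩
  have h1 : x.den = 1 := by
    by_contra hne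
    obtain ⟨p, hp, hpd⟩ := Nat.exists_prime_and_dvd hne
    have : Fact p.Prime := ⟨hp⟩
    have h2 := h p hp
    have h3 : padicNorm p (x.den : ℚ) < 1 := (padicNorm.nat_lt_one_iff x.den).2 hpd
    have h4 : padicNorm p (x.num : ℚ) = 1 := by
      rw [padicNorm.int_eq_one_iff]
      intro hd
      have h5 : p ∣ x.num.natAbs := Int.natCast_dvd.1 hd
      have h6 := Nat.dvd_gcd h5 hpd
      rw [x.reduced] at h6
      exact hp.one_lt.ne' (Nat.dvd_one.1 h6)
    have h7 : x = (x.num : ℚ) / (x.den : ℚ) := (Rat.num_div_den x).symm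
    rw [h7, padicNorm.div, h4] at h2
    have h8 : 0 < padicNorm p (x.den : ℚ) := lt_of_le_of_ne (padicNorm.nonneg _)
      (padicNorm.nonzero (by exact_mod_cast x.den_nz)).symm
    rw [div_le_one h8] at h2
    linarith
  exact (Rat.den_eq_one_iff x).1 h1

theorem pole_not (Q : Set ℕ) (hQ : Rich Q) : ¬ Alg2 Q (Pole Q) := by
  intro hP
  obtain ⟨B, hB, hsl⟩ := alg_slice Q _ hP
  have hBZ : {n : ℤ | (n : ℚ) ∈ B}.Finite := hB.preimage Int.cast_injective.injOn
  obtain ⟨n, hn⟩ := hBZ.infinite_compl.nonempty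
  have h1 := hsl n hn
  have h2 := Alg.inter _ _ h1 (ring_mem Q)
  obtain ⟨a, b, hb, -, -, hab⟩ := main Q hQ _ h2 (by
    rintro x ⟨hx1, hx2⟩
    apply int_of_norm
    intro p hp
    by_cases hpQ : p ∈ Q
    · have : Fact p.Prime := ⟨hp⟩
      by_contra hlt
      push Not at hlt
      have h3 := hx1 p hp hpQ hlt
      exact absurd h3 (not_lt.2 (padicNorm.of_int n))
    · exact hx2 p hp hpQ) 0 1 one_pos
  refine hab a (by simp) ⟨?_, ?_⟩
  · intro p hp _ hlt
    have : Fact p.Prime := ⟨hp⟩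
    exact absurd hlt (not_lt.2 (padicNorm.of_int a))
  · intro p hp _
    have : Fact p.Prime := ⟨hp⟩
    exact padicNorm.of_int a

end Pool.Agent.TH766.HP
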